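import Pool.Agent.Helper98.C2K3.Link

/-!
PROJECT C2, kernel K_III+: GoalK3.
-/

namespace Pool.Agent.Helper98.C2K3

open LaurentPolynomial Pool.Agent.Helper52.C2 Pool.Agent.Helper59.C2K

/-- the corrections of the diagonal entries -/
noncomputable def dg (n : Fin 4 → ℤ) (i : ℤ) : Dir (Fin 4) → Dir (Fin 4) → ℝ
  | .V k, .V l => if k = l then tr (n k) (KK (n - Pi.single k 2) i) else 0
  | _, _ => 0

theorem ev_V {J : Type} [DecidableEq J] (j k : J) : ev j (Dir.V k) = (Pi.single k 1 : J → ℤ) j := by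
  simp only [ev, Pi.single_apply, eq_comm]

theorem ev_X {J : Type} [DecidableEq J] (j : J) : ev j (Dir.X : Dir J) = 0 := rfl
theorem ev_Y {J : Type} [DecidableEq J] (j : J) : ev j (Dir.Y : Dir J) = 0 := rfl

theorem gw_eq (n : Fin 4 → ℤ) (i : ℤ) (a b : Dir (Fin 4)) :
    gw n i a b = KK (fun j => n j - ev j a - ev j b) (i + hx a + hx b) := rfl

theorem kwin_eq (n : Fin 4 → ℤ) (i : ℤ) (a b : Dir (Fin 4)) :
    kwin K3 (fun _ => True) (fun _ => U 0) n i a b = gw n i a b + dg n i a b := by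
  rw [gw_eq]
  rcases a with _ | _ | k <;> rcases b with _ | _ | l
  · simp only [kwin, dg, K3_coeff, ev_X, hx, sub_zero, add_zero, add_assoc]; norm_num
  · simp only [kwin, dg, K3_coeff, ev_X, ev_Y, hx, sub_zero, add_zero]
  · simp only [kwin, dg, K3_coeff, ev_X, ev_V, hx, sub_zero, add_zero]; rfl
  · simp only [kwin, dg, K3_coeff, ev_X, ev_Y, hx, sub_zero, add_zero]
  · simp only [kwin, dg, K3_coeff, ev_Y, hx, sub_zero, add_zero]
  · simp only [kwin, dg, K3_coeff, ev_Y, ev_V, hx, sub_zero, add_zero]; rfl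
  · simp only [kwin, dg, K3_coeff, ev_X, ev_V, hx, sub_zero, add_zero]; rfl
  · simp only [kwin, dg, K3_coeff, ev_Y, ev_V, hx, sub_zero, add_zero]; rfl
  · simp only [kwin, dg, K3_coeff, ev_V, hx, add_zero]
    by_cases hkl : k = l
    · subst hkl
      have e : (fun j => n j - (Pi.single k 1 : Fin 4 → ℤ) j - (Pi.single k 1 : Fin 4 → ℤ) j)
          = n - Pi.single k 2 := by
        funext j
        simp only [Pi.sub_apply, Pi.single_apply]
        split_ifs <;> ring
      have e' : n - Pi.single k 1 - Pi.single k 1 = n - Pi.single k 2 := by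
        funext j
        simp only [Pi.sub_apply, Pi.single_apply]
        split_ifs <;> ring
      rw [e, e']
      by_cases h1 : n k = 1
      · rw [if_pos ⟨rfl, h1⟩, if_pos rfl]
        unfold tr
        rw [if_pos h1]
        rcases le_total (KK (n - Pi.single k 2) i) 0 with h | h
        · rw [max_eq_right h, max_eq_right (by linarith)]; ring
        · rw [max_eq_left h, max_eq_left (by linarith)]; ring
      · rw [if_neg (fun h => h1 h.2), if_pos rfl, tr_eq_zero_of_ne h1, add_zero]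
    · rw [if_neg (fun h => hkl h.1), if_neg hkl, add_zero]
      rfl

theorem quad_dg (n : Fin 4 → ℤ) (i : ℤ) (v : Dir (Fin 4) → ℝ) :
    quad (dg n i) v = tr (n 0) (kk (n 0 - 2) (n 1) (n 2) (n 3) i) * v (.V 0) ^ 2
      + tr (n 1) (kk (n 0) (n 1 - 2) (n 2) (n 3) i) * v (.V 1) ^ 2
      + tr (n 2) (kk (n 0) (n 1) (n 2 - 2) (n 3) i) * v (.V 2) ^ 2
      + tr (n 3) (kk (n 0) (n 1) (n 2) (n 3 - 2) i) * v (.V 3) ^ 2 := by
  unfold quad
  rw [sum_dir, Fin.sum_univ_four]
  simp only [sum_dir, Fin.sum_univ_four, dg, KK, Pi.sub_apply, Pi.single_apply]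
  simp
  ring

theorem quad_kwin (n : Fin 4 → ℤ) (i : ℤ) (v : Dir (Fin 4) → ℝ) :
    quad (kwin K3 (fun _ => True) (fun _ => U 0) n i) v =
      QP (n 0) (n 1) (n 2) (n 3) (i + 2) (v .X) (v (.V 0)) (v (.V 1))
      (v (.V 2)) (v (.V 3)) (v .X + v .Y + v (.V 0) + v (.V 1) + v (.V 2) + v (.V 3)) := by
  have e : kwin K3 (fun _ => True) (fun _ => U 0) n i = fun a b => gw n i a b + dg n i a b := by
    funext a b; exact kwin_eq n i a b
  rw [e, quad_add, quad_gw, quad_dg]
  unfold QP
  rw [add_sub_cancel_right]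
  ring

/-! ### outside of the support -/

theorem KK_out {n : Fin 4 → ℤ} {i : ℤ} (hn : ∀ k, 0 ≤ n k)
    (h : i < 0 ∨ n 0 + n 1 + n 2 + n 3 - 2 - i < 0) : KK n i = 0 := by
  unfold KK
  rcases h with h | h
  · exact kk_out (hn 0) (hn 1) (hn 2) (hn 3) h
  · rw [kk_refl]; exact kk_out (hn 0) (hn 1) (hn 2) (hn 3) h

theorem KK_out' {n : Fin 4 → ℤ} {i : ℤ} (hn : ∀ k, 0 ≤ n k) (k : Fin 4) (hk : n k = 1)
    (h : i < 0 ∨ n 0 + n 1 + n 2 + n 3 - 4 - i < 0) : KK (n - Pi.single k 2) i ≤ 0 := by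
  have key : ∀ b c d i : ℤ, 0 ≤ b → 0 ≤ c → 0 ≤ d → (i < 0 ∨ 1 + b + c + d - 4 - i < 0) →
      kk (1 - 2) b c d i ≤ 0 := by
    intro b c d i hb hc hd h
    rcases h with h | h
    · exact kk_out' hb hc hd h
    · rw [kk_refl]; exact kk_out' hb hc hd (by omega)
  have h0 := hn 0
  have h1 := hn 1
  have h2 := hn 2
  have h3 := hn 3
  unfold KK
  fin_cases k
  · simp at hk
    simp [hk]
    exact key _ _ _ i h1 h2 h3 (by omega)
  · simp at hk
    simp [hk]
    rw [kk_swap12]
    exact key _ _ _ i h0 h2 h3 (by omega)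
  · simp at hk
    simp [hk]
    rw [kk_swapP]
    exact key _ _ _ i h3 h0 h1 (by omega)
  · simp at hk
    simp [hk]
    rw [kk_swapP, kk_swap12]
    exact key _ _ _ i h2 h0 h1 (by omega)

theorem kwin_VV_out {n : Fin 4 → ℤ} {i : ℤ} (hn : ∀ k, 0 ≤ n k) (k l : Fin 4)
    (hk : 1 ≤ n k) (hl : 1 ≤ n l)
    (h : i < 0 ∨ n 0 + n 1 + n 2 + n 3 - 4 - i < 0) :
    kwin K3 (fun _ => True) (fun _ => U 0) n i (.V k) (.V l) = 0 := by
  simp only [kwin, K3_coeff]
  by_cases h1 : k = l ∧ n k = 1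
  · rw [if_pos h1]
    exact max_eq_right (KK_out' hn k h1.2 h)
  · rw [if_neg h1]
    have h0 : ∀ j, 0 ≤ (n - Pi.single k 1 - Pi.single l 1 : Fin 4 → ℤ) j := by
      intro j
      have := hn j
      simp only [Pi.sub_apply, Pi.single_apply]
      by_cases hjk : j = k
      · subst hjk
        by_cases hjl : j = l
        · subst hjl
          have : n j ≠ 1 := fun h' => h1 ⟨rfl, h'⟩
          simp
          omega
        · simp [hjl]; omega
      · by_cases hjl : j = l
        · subst hjl; simp [hjk]; omega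
        · simp [hjk, hjl]; omega
    apply KK_out h0
    rcases h with h | h
    · left; exact h
    · right
      simp only [Pi.sub_apply, Pi.single_apply]
      fin_cases k <;> fin_cases l <;> simp <;> omega

theorem KK_single_out {n : Fin 4 → ℤ} {i : ℤ} (hn : ∀ k, 0 ≤ n k) (k : Fin 4)
    (hk : 1 ≤ n k) (h : i < 0 ∨ n 0 + n 1 + n 2 + n 3 - 3 - i < 0) :
    KK (n - Pi.single k 1) i = 0 := by
  have h0 : ∀ j, 0 ≤ (n - Pi.single k 1 : Fin 4 → ℤ) j := by
    intro j
    have := hn j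
    simp only [Pi.sub_apply, Pi.single_apply]
    by_cases hjk : j = k
    · subst hjk; simp; omega
    · simp [hjk]; omega
  apply KK_out h0
  rcases h with h | h
  · left; exact h
  · right
    simp only [Pi.sub_apply, Pi.single_apply]
    fin_cases k <;> simp <;> omega

theorem onePos_low {n : Fin 4 → ℤ} {i : ℤ} (hn : ∀ k, 0 ≤ n k) (hi : i < 0) :
    ∃ l : Dir (Fin 4) → ℝ, ∀ v : Dir (Fin 4) → ℝ, (∀ k, ¬ 1 ≤ n k → v (.V k) = 0) →
      ∑ a, l a * v a = 0 → quad (kwin K3 (fun _ => True) (fun _ => U 0) n i) v ≤ 0 := by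
  refine ⟨fun a => match a with | .X => 1 | _ => 0, fun v hv hl => ?_⟩
  have hX : v .X = 0 := by
    rw [sum_dir] at hl
    simpa using hl
  apply le_of_eq
  unfold quad
  apply Finset.sum_eq_zero
  intro a _
  apply Finset.sum_eq_zero
  intro b _
  rcases a with _ | _ | k
  · rw [hX]; ring
  · rcases b with _ | _ | l
    · rw [hX]; ring
    · have : kwin K3 (fun _ => True) (fun _ => U 0) n i .Y .Y = 0 := by
        simp only [kwin, K3_coeff]
        exact KK_out hn (Or.inl hi)
      rw [this]; ring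
    · by_cases h1 : 1 ≤ n l
      · have : kwin K3 (fun _ => True) (fun _ => U 0) n i .Y (.V l) = 0 := by
          simp only [kwin, K3_coeff]
          exact KK_single_out hn l h1 (Or.inl hi)
        rw [this]; ring
      · rw [hv l h1]; ring
  · by_cases h0 : 1 ≤ n k
    · rcases b with _ | _ | l
      · rw [hX]; ring
      · have : kwin K3 (fun _ => True) (fun _ => U 0) n i (.V k) .Y = 0 := by
          simp only [kwin, K3_coeff]
          exact KK_single_out hn k h0 (Or.inl hi)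
        rw [this]; ring
      · by_cases h1 : 1 ≤ n l
        · rw [kwin_VV_out hn k l h0 h1 (Or.inl hi)]; ring
        · rw [hv l h1]; ring
    · rw [hv k h0]; ring

theorem onePos_high {n : Fin 4 → ℤ} {i : ℤ} (hn : ∀ k, 0 ≤ n k)
    (hi : n 0 + n 1 + n 2 + n 3 - 4 - i < 0) :
    ∃ l : Dir (Fin 4) → ℝ, ∀ v : Dir (Fin 4) → ℝ, (∀ k, ¬ 1 ≤ n k → v (.V k) = 0) →
      ∑ a, l a * v a = 0 → quad (kwin K3 (fun _ => True) (fun _ => U 0) n i) v ≤ 0 := by
  refine ⟨fun a => match a with | .Y => 1 | _ => 0, fun v hv hl => ?_⟩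
  have hY : v .Y = 0 := by
    rw [sum_dir] at hl
    simpa using hl
  apply le_of_eq
  unfold quad
  apply Finset.sum_eq_zero
  intro a _
  apply Finset.sum_eq_zero
  intro b _
  rcases a with _ | _ | k
  · rcases b with _ | _ | l
    · have : kwin K3 (fun _ => True) (fun _ => U 0) n i .X .X = 0 := by
        simp only [kwin, K3_coeff]
        exact KK_out hn (Or.inr (by omega))
      rw [this]; ring
    · rw [hY]; ring
    · by_cases h1 : 1 ≤ n l
      · have : kwin K3 (fun _ => True) (fun _ => U 0) n i .X (.V l) = 0 := by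
          simp only [kwin, K3_coeff]
          exact KK_single_out hn l h1 (Or.inr (by omega))
        rw [this]; ring
      · rw [hv l h1]; ring
  · rw [hY]; ring
  · by_cases h0 : 1 ≤ n k
    · rcases b with _ | _ | l
      · have : kwin K3 (fun _ => True) (fun _ => U 0) n i (.V k) .X = 0 := by
          simp only [kwin, K3_coeff]
          exact KK_single_out hn k h0 (Or.inr (by omega))
        rw [this]; ring
      · rw [hY]; ring
      · by_cases h1 : 1 ≤ n l
        · rw [kwin_VV_out hn k l h0 h1 (Or.inr hi)]; ring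
        · rw [hv l h1]; ring
    · rw [hv k h0]; ring

/-- K_III+ -/
theorem goalK3 : GoalK3 := by
  intro n i hn
  by_cases h1 : i < 0
  · obtain ⟨l, h⟩ := onePos_low hn h1
    exact ⟨l, fun v hv hl => h v (fun k hk => hv (.V k) fun h' => hk h'.2) hl⟩
  by_cases h2 : n 0 + n 1 + n 2 + n 3 - 4 - i < 0
  · obtain ⟨l, h⟩ := onePos_high hn h2
    exact ⟨l, fun v hv hl => h v (fun k hk => hv (.V k) fun h' => hk h'.2) hl⟩
  obtain ⟨lp, l1, l2, l3, l4, lw, h⟩ := OPP_all (hn 0) (hn 1) (hn 2) (hn 3)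
    (x := i + 2) (by omega) (by omega)
  refine ⟨fun a => match a with
    | .X => lp + lw
    | .Y => lw
    | .V k => ![l1, l2, l3, l4] k + lw, fun v hv hl => ?_⟩
  rw [quad_kwin]
  have z : ∀ k, n k = 0 → v (.V k) = 0 := by
    intro k hk
    apply hv
    intro h'
    have := h'.2
    omega
  apply h _ _ _ _ _ _ (z 0) (z 1) (z 2) (z 3)
  rw [sum_dir, Fin.sum_univ_four] at hl
  simp at hl
  linarith

end Pool.Agent.Helper98.C2K3
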