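import Pool.Agent.Helper98.C2K3.Basic

/-!
PROJECT C2, kernel K_III+: explicit coefficients, the natural form, symmetries, formula (F).
-/

namespace Pool.Agent.Helper98.C2K3

/-- coefficient of `[a][b]` -/
noncomputable def g2 (a b m : ℤ) : ℝ :=
  pp (m + 1) - pp (m + 1 - a) - pp (m + 1 - b) + pp (m + 1 - a - b)

/-- coefficient of `x [a][b][c][d]` -/
noncomputable def g4 (a b c d m : ℤ) : ℝ :=
  p3 (m + 1) - p3 (m + 1 - a) - p3 (m + 1 - b) - p3 (m + 1 - c) - p3 (m + 1 - d)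
  + p3 (m + 1 - a - b) + p3 (m + 1 - a - c) + p3 (m + 1 - a - d) + p3 (m + 1 - b - c)
  + p3 (m + 1 - b - d) + p3 (m + 1 - c - d)
  - p3 (m + 1 - a - b - c) - p3 (m + 1 - a - b - d) - p3 (m + 1 - a - c - d)
  - p3 (m + 1 - b - c - d) + p3 (m + 1 - a - b - c - d)

/-- coefficient of `[a+b][c+d] + x [a][b][c][d]` -/
noncomputable def kk (a b c d m : ℤ) : ℝ := g2 (a + b) (c + d) m + g4 a b c d m

theorem g4_swap12 (a b c d m : ℤ) : g4 b a c d m = g4 a b c d m := by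
  unfold g4; ring_nf

theorem g4_swap34 (a b c d m : ℤ) : g4 a b d c m = g4 a b c d m := by
  unfold g4; ring_nf

theorem g4_swap23 (a b c d m : ℤ) : g4 a c b d m = g4 a b c d m := by
  unfold g4; ring_nf

theorem g2_swap (a b m : ℤ) : g2 b a m = g2 a b m := by
  unfold g2; ring_nf

theorem kk_swap12 (a b c d m : ℤ) : kk b a c d m = kk a b c d m := by
  unfold kk; rw [g4_swap12, add_comm b a]

theorem kk_swap34 (a b c d m : ℤ) : kk a b d c m = kk a b c d m := by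
  unfold kk; rw [g4_swap34, add_comm d c]

theorem kk_swapP (a b c d m : ℤ) : kk c d a b m = kk a b c d m := by
  unfold kk
  rw [g2_swap]
  congr 1
  rw [← g4_swap23, ← g4_swap12, ← g4_swap34, ← g4_swap23]

theorem g2_refl (a b m : ℤ) : g2 a b m = g2 a b (a + b - 2 - m) := by
  unfold g2
  rw [pp_neg (m + 1), pp_neg (m + 1 - a), pp_neg (m + 1 - b), pp_neg (m + 1 - a - b)]
  push_cast
  ring_nf

theorem g4_refl (a b c d m : ℤ) : g4 a b c d m = g4 a b c d (a + b + c + d - 2 - m) := by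
  unfold g4
  rw [p3_neg (m + 1), p3_neg (m + 1 - a), p3_neg (m + 1 - b), p3_neg (m + 1 - c),
    p3_neg (m + 1 - d), p3_neg (m + 1 - a - b), p3_neg (m + 1 - a - c), p3_neg (m + 1 - a - d),
    p3_neg (m + 1 - b - c), p3_neg (m + 1 - b - d), p3_neg (m + 1 - c - d),
    p3_neg (m + 1 - a - b - c), p3_neg (m + 1 - a - b - d), p3_neg (m + 1 - a - c - d),
    p3_neg (m + 1 - b - c - d), p3_neg (m + 1 - a - b - c - d)]
  push_cast
  ring_nf

theorem kk_refl (a b c d m : ℤ) : kk a b c d m = kk a b c d (a + b + c + d - 2 - m) := by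
  unfold kk
  rw [g2_refl, g4_refl]
  congr 2
  ring

/-- the natural form, in the variables `p` (X), `v1, .., v4`, `w` (the sum of all). -/
noncomputable def QN (a b c d x : ℤ) (p v1 v2 v3 v4 w : ℝ) : ℝ :=
  (W pp x p w - W pp (x - a - b) (p + v1 + v2) w - W pp (x - c - d) (p + v3 + v4) w
    + W pp (x - a - b - c - d) (p + v1 + v2 + v3 + v4) w)
  + (W p3 x p w - W p3 (x - a) (p + v1) w - W p3 (x - b) (p + v2) w - W p3 (x - c) (p + v3) w
    - W p3 (x - d) (p + v4) w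
    + W p3 (x - a - b) (p + v1 + v2) w + W p3 (x - a - c) (p + v1 + v3) w
    + W p3 (x - a - d) (p + v1 + v4) w + W p3 (x - b - c) (p + v2 + v3) w
    + W p3 (x - b - d) (p + v2 + v4) w + W p3 (x - c - d) (p + v3 + v4) w
    - W p3 (x - a - b - c) (p + v1 + v2 + v3) w - W p3 (x - a - b - d) (p + v1 + v2 + v4) w
    - W p3 (x - a - c - d) (p + v1 + v3 + v4) w - W p3 (x - b - c - d) (p + v2 + v3 + v4) w
    + W p3 (x - a - b - c - d) (p + v1 + v2 + v3 + v4) w)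

theorem QN_swap12 (a b c d x : ℤ) (p v1 v2 v3 v4 w : ℝ) :
    QN b a c d x p v2 v1 v3 v4 w = QN a b c d x p v1 v2 v3 v4 w := by
  unfold QN; ring_nf

theorem QN_swap34 (a b c d x : ℤ) (p v1 v2 v3 v4 w : ℝ) :
    QN a b d c x p v1 v2 v4 v3 w = QN a b c d x p v1 v2 v3 v4 w := by
  unfold QN; ring_nf

theorem QN_swapP (a b c d x : ℤ) (p v1 v2 v3 v4 w : ℝ) :
    QN c d a b x p v3 v4 v1 v2 w = QN a b c d x p v1 v2 v3 v4 w := by
  unfold QN; ring_nf

theorem W_pp_refl (t : ℤ) (s w : ℝ) :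
    W pp t s w = 2 * w * (s + ((t : ℝ) - 1) * w / 2) + W pp (-t) (w - s) w := by
  unfold W
  rw [pp_neg (t + 1), pp_neg t, pp_neg (t - 1)]
  rw [show -(t - 1) = -t + 1 by ring, show -(t + 1) = -t - 1 by ring]
  push_cast
  ring

theorem W_p3_refl (t : ℤ) (s w : ℝ) :
    W p3 t s w = (t : ℝ) * ((s + ((t : ℝ) - 1) * w / 2) ^ 2 - ((t : ℝ) ^ 2 - 1) * w ^ 2 / 12)
      + W p3 (-t) (w - s) w := by
  unfold W
  rw [p3_neg (t + 1), p3_neg t, p3_neg (t - 1)]
  rw [show -(t - 1) = -t + 1 by ring, show -(t + 1) = -t - 1 by ring]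
  push_cast
  ring

theorem QN_refl (a b c d x : ℤ) (p v1 v2 v3 v4 w : ℝ) :
    QN a b c d x p v1 v2 v3 v4 w =
      QN a b c d (a + b + c + d - x) (w - p - v1 - v2 - v3 - v4) v1 v2 v3 v4 w := by
  unfold QN
  rw [W_pp_refl x, W_pp_refl (x - a - b), W_pp_refl (x - c - d), W_pp_refl (x - a - b - c - d),
    W_p3_refl x, W_p3_refl (x - a), W_p3_refl (x - b), W_p3_refl (x - c),
    W_p3_refl (x - d), W_p3_refl (x - a - b), W_p3_refl (x - a - c), W_p3_refl (x - a - d),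
    W_p3_refl (x - b - c), W_p3_refl (x - b - d), W_p3_refl (x - c - d),
    W_p3_refl (x - a - b - c), W_p3_refl (x - a - b - d), W_p3_refl (x - a - c - d),
    W_p3_refl (x - b - c - d), W_p3_refl (x - a - b - c - d)]
  push_cast
  ring_nf

theorem p3_eq (t : ℤ) : p3 t = pp t * ((t : ℝ) ^ 2 - 1) / 6 := by
  by_cases h : 0 ≤ t
  · rw [p3_of_nonneg h, pp_of_nonneg h]; ring
  · rw [p3_of_nonpos (by omega), pp_of_nonpos (by omega)]; ring

/-- the square part of the formula (F) -/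
noncomputable def HF (a b c d x : ℤ) (e u1 u2 u3 u4 : ℝ) : ℝ :=
  pp x * e ^ 2 - pp (x - a) * (e - u1) ^ 2 - pp (x - b) * (e - u2) ^ 2
  - pp (x - c) * (e - u3) ^ 2 - pp (x - d) * (e - u4) ^ 2
  + pp (x - a - b) * (e - u1 - u2) ^ 2 + pp (x - a - c) * (e - u1 - u3) ^ 2
  + pp (x - a - d) * (e - u1 - u4) ^ 2 + pp (x - b - c) * (e - u2 - u3) ^ 2
  + pp (x - b - d) * (e - u2 - u4) ^ 2 + pp (x - c - d) * (e - u3 - u4) ^ 2
  - pp (x - a - b - c) * (e - u1 - u2 - u3) ^ 2 - pp (x - a - b - d) * (e - u1 - u2 - u4) ^ 2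
  - pp (x - a - c - d) * (e - u1 - u3 - u4) ^ 2 - pp (x - b - c - d) * (e - u2 - u3 - u4) ^ 2
  + pp (x - a - b - c - d) * (e - u1 - u2 - u3 - u4) ^ 2

/-- formula (F) -/
theorem QN_eq (a b c d x : ℤ) (p v1 v2 v3 v4 w : ℝ) :
    QN a b c d x p v1 v2 v3 v4 w =
      (W pp x p w - W pp (x - a - b) (p + v1 + v2) w - W pp (x - c - d) (p + v3 + v4) w
        + W pp (x - a - b - c - d) (p + v1 + v2 + v3 + v4) w)
      + HF a b c d x (p + ((x : ℝ) - 1) * w / 2) ((a : ℝ) * w / 2 - v1) ((b : ℝ) * w / 2 - v2)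
        ((c : ℝ) * w / 2 - v3) ((d : ℝ) * w / 2 - v4)
      - g4 a b c d (x - 1) / 2 * w ^ 2 := by
  unfold QN HF g4
  simp only [W_p3, p3_eq, sub_add_cancel]
  push_cast
  ring

end Pool.Agent.Helper98.C2K3
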