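import Mathlib

/-!
PROJECT C2, kernel K_III+: one-variable identities.
-/

namespace Pool.Agent.Helper98.C2K3

/-- positive part of an integer, as a real number -/
noncomputable def pp (t : ℤ) : ℝ := if 0 ≤ t then (t : ℝ) else 0

/-- coefficients of `x^2/(1-x)^4`, shifted -/
noncomputable def p3 (t : ℤ) : ℝ := if 0 ≤ t then ((t : ℝ) ^ 3 - t) / 6 else 0

/-- coefficients of `x^2/(1-x)^3` -/
noncomputable def qq (t : ℤ) : ℝ := if 0 ≤ t then ((t : ℝ) ^ 2 - t) / 2 else 0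

/-- second order window of a function of an integer -/
noncomputable def W (g : ℤ → ℝ) (t : ℤ) (s w : ℝ) : ℝ :=
  g (t + 1) * s ^ 2 + 2 * (g t * (s * (w - s))) + g (t - 1) * (w - s) ^ 2

theorem pp_of_nonneg {t : ℤ} (h : 0 ≤ t) : pp t = t := by simp [pp, h]

theorem pp_of_nonpos {t : ℤ} (h : t ≤ 0) : pp t = 0 := by
  unfold pp
  split_ifs with h1
  · obtain rfl : t = 0 := le_antisymm h h1
    simp
  · rfl

theorem pp_nonneg (t : ℤ) : 0 ≤ pp t := by
  unfold pp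
  split_ifs with h1
  · exact_mod_cast h1
  · exact le_refl _

theorem p3_of_nonneg {t : ℤ} (h : 0 ≤ t) : p3 t = ((t : ℝ) ^ 3 - t) / 6 := by simp [p3, h]

theorem p3_of_nonpos {t : ℤ} (h : t ≤ 1) : p3 t = 0 := by
  unfold p3
  split_ifs with h1
  · obtain rfl | rfl : t = 0 ∨ t = 1 := by omega
    · simp
    · simp
  · rfl

theorem qq_of_nonneg {t : ℤ} (h : 0 ≤ t) : qq t = ((t : ℝ) ^ 2 - t) / 2 := by simp [qq, h]

theorem qq_of_nonpos {t : ℤ} (h : t ≤ 1) : qq t = 0 := by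
  unfold qq
  split_ifs with h1
  · obtain rfl | rfl : t = 0 ∨ t = 1 := by omega
    · simp
    · simp
  · rfl

theorem p3_sub (t : ℤ) : p3 (t + 1) - p3 t = qq (t + 1) := by
  by_cases h : 0 ≤ t
  · rw [p3_of_nonneg h, p3_of_nonneg (show 0 ≤ t + 1 by omega), qq_of_nonneg (by omega)]
    push_cast
    ring
  · rw [p3_of_nonpos (by omega), p3_of_nonpos (by omega), qq_of_nonpos (by omega)]
    ring

theorem qq_sub (t : ℤ) : qq (t + 1) - qq t = pp t := by
  by_cases h : 0 ≤ t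
  · rw [qq_of_nonneg h, qq_of_nonneg (show 0 ≤ t + 1 by omega), pp_of_nonneg (by omega)]
    push_cast
    ring
  · rw [qq_of_nonpos (by omega), qq_of_nonpos (by omega), pp_of_nonpos (by omega)]
    ring

theorem pp_neg (t : ℤ) : pp t = t + pp (-t) := by
  by_cases h : 0 ≤ t
  · rw [pp_of_nonneg h, pp_of_nonpos (by omega)]; ring
  · rw [pp_of_nonpos (by omega), pp_of_nonneg (by omega)]; push_cast; ring

theorem p3_neg (t : ℤ) : p3 t = ((t : ℝ) ^ 3 - t) / 6 + p3 (-t) := by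
  by_cases h : 0 ≤ t
  · rw [p3_of_nonneg h, p3_of_nonpos (by omega)]; ring
  · rw [p3_of_nonpos (by omega), p3_of_nonneg (by omega)]; push_cast; ring

/-- L1 -/
theorem W_p3 (t : ℤ) (s w : ℝ) :
    W p3 t s w = pp t * ((s + ((t : ℝ) - 1) * w / 2) ^ 2 - ((t : ℝ) ^ 2 - 1) * w ^ 2 / 12) := by
  unfold W
  by_cases h : 1 ≤ t
  · rw [p3_of_nonneg (show 0 ≤ t + 1 by omega), p3_of_nonneg (show 0 ≤ t by omega),
      p3_of_nonneg (show 0 ≤ t - 1 by omega), pp_of_nonneg (by omega)]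
    push_cast
    ring
  · rw [p3_of_nonpos (show t + 1 ≤ 1 by omega), p3_of_nonpos (show t ≤ 1 by omega),
      p3_of_nonpos (show t - 1 ≤ 1 by omega), pp_of_nonpos (by omega)]
    ring

/-- L2, `1 ≤ t` -/
theorem W_pp_pos {t : ℤ} (h : 1 ≤ t) (s w : ℝ) :
    W pp t s w = 2 * w * (s + ((t : ℝ) - 1) * w / 2) := by
  unfold W
  rw [pp_of_nonneg (show 0 ≤ t + 1 by omega), pp_of_nonneg (show 0 ≤ t by omega),
      pp_of_nonneg (show 0 ≤ t - 1 by omega)]
  push_cast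
  ring

/-- L2, `t = 0` -/
theorem W_pp_zero (s w : ℝ) : W pp 0 s w = s ^ 2 := by
  unfold W
  rw [pp_of_nonneg (show (0 : ℤ) ≤ 0 + 1 by omega), pp_of_nonneg (show (0 : ℤ) ≤ 0 by omega),
      pp_of_nonpos (show (0 : ℤ) - 1 ≤ 0 by omega)]
  push_cast
  ring

/-- L2, `t < 0` -/
theorem W_pp_neg {t : ℤ} (h : t < 0) (s w : ℝ) : W pp t s w = 0 := by
  unfold W
  rw [pp_of_nonpos (show t + 1 ≤ 0 by omega), pp_of_nonpos (show t ≤ 0 by omega),
      pp_of_nonpos (show t - 1 ≤ 0 by omega)]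
  ring

/-- Lq -/
theorem W_qq_nonneg {t : ℤ} (h : 0 ≤ t) (s w : ℝ) :
    W qq (t + 1) s w = (s + (t : ℝ) * w) ^ 2 - w ^ 2 * ((t : ℝ) * ((t : ℝ) + 1) / 2) := by
  unfold W
  rw [qq_of_nonneg (show 0 ≤ t + 1 + 1 by omega), qq_of_nonneg (show 0 ≤ t + 1 by omega),
      qq_of_nonneg (show 0 ≤ t + 1 - 1 by omega)]
  push_cast
  ring

theorem W_qq_neg {t : ℤ} (h : t < 0) (s w : ℝ) : W qq (t + 1) s w = 0 := by
  unfold W
  rw [qq_of_nonpos (show t + 1 + 1 ≤ 1 by omega), qq_of_nonpos (show t + 1 ≤ 1 by omega),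
      qq_of_nonpos (show t + 1 - 1 ≤ 1 by omega)]
  ring

/-- the double sum of a function of the number of marked directions -/
theorem sum_W {ι : Type} [Fintype ι] (g : ℤ → ℝ) (t : ℤ) (χ : ι → ℤ)
    (hχ : ∀ a, χ a = 0 ∨ χ a = 1) (v : ι → ℝ) :
    ∑ a, ∑ b, v a * g (t - 1 + χ a + χ b) * v b =
      W g t (∑ a, (χ a : ℝ) * v a) (∑ a, v a) := by
  have key : ∀ a b, v a * g (t - 1 + χ a + χ b) * v b =
      g (t + 1) * (((χ a : ℝ) * v a) * ((χ b : ℝ) * v b)) +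
      g t * (((χ a : ℝ) * v a) * (v b - (χ b : ℝ) * v b)) +
      g t * ((v a - (χ a : ℝ) * v a) * ((χ b : ℝ) * v b)) +
      g (t - 1) * ((v a - (χ a : ℝ) * v a) * (v b - (χ b : ℝ) * v b)) := by
    intro a b
    rcases hχ a with h | h <;> rcases hχ b with h' | h' <;> rw [h, h'] <;> push_cast
    · rw [show t - 1 + 0 + 0 = t - 1 by ring]; ring
    · rw [show t - 1 + 0 + 1 = t by ring]; ring
    · rw [show t - 1 + 1 + 0 = t by ring]; ring
    · rw [show t - 1 + 1 + 1 = t + 1 by ring]; ring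
  simp_rw [key, Finset.sum_add_distrib, ← Finset.mul_sum, ← Finset.sum_mul,
    Finset.sum_sub_distrib]
  unfold W
  ring

end Pool.Agent.Helper98.C2K3
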