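import Pool.Agent.Helper98.C2K3.Form

/-!
PROJECT C2, kernel K_III+: lower bounds for the coefficients of `[a][b][c][d]`.
-/

namespace Pool.Agent.Helper98.C2K3

theorem g2_nonneg {a b : ℤ} (ha : 0 ≤ a) (hb : 0 ≤ b) (m : ℤ) : 0 ≤ g2 a b m := by
  have ha' : (0 : ℝ) ≤ a := by exact_mod_cast ha
  have hb' : (0 : ℝ) ≤ b := by exact_mod_cast hb
  have mono : ∀ s t : ℤ, s ≤ t → pp s ≤ pp t := by
    intro s t h
    by_cases hs : 0 ≤ s
    · rw [pp_of_nonneg hs, pp_of_nonneg (by omega)]; exact_mod_cast h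
    · rw [pp_of_nonpos (by omega)]; exact pp_nonneg t
  unfold g2
  by_cases h : 0 ≤ m + 1 - a
  · by_cases h' : 0 ≤ m + 1 - b
    · rw [pp_of_nonneg h, pp_of_nonneg h', pp_of_nonneg (show 0 ≤ m + 1 by omega)]
      by_cases h2 : 0 ≤ m + 1 - a - b
      · rw [pp_of_nonneg h2]; push_cast; linarith
      · rw [pp_of_nonpos (by omega)]
        have : ((m + 1 - a - b : ℤ) : ℝ) ≤ 0 := by exact_mod_cast (by omega)
        push_cast at *
        linarith
    · rw [pp_of_nonpos (show m + 1 - b ≤ 0 by omega)]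
      have := mono (m + 1 - a) (m + 1) (by omega)
      have := pp_nonneg (m + 1 - a - b)
      linarith
  · rw [pp_of_nonpos (show m + 1 - a ≤ 0 by omega)]
    have := mono (m + 1 - b) (m + 1) (by omega)
    have := pp_nonneg (m + 1 - a - b)
    linarith

theorem g2_lower {a b m r : ℤ} (hr : 0 ≤ r) (h1 : r ≤ m + 1) (h2 : r ≤ a) (h3 : r ≤ b)
    (h4 : r ≤ a + b - 1 - m) : (r : ℝ) ≤ g2 a b m := by
  have h1' : (r : ℝ) ≤ m + 1 := by exact_mod_cast h1
  have h2' : (r : ℝ) ≤ a := by exact_mod_cast h2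
  have h3' : (r : ℝ) ≤ b := by exact_mod_cast h3
  have h4' : (r : ℝ) ≤ a + b - 1 - m := by exact_mod_cast h4
  have e1 : pp (m + 1) = m + 1 := by rw [pp_of_nonneg (by omega)]; push_cast; ring
  have e4 : pp (m + 1 - a - b) = 0 := pp_of_nonpos (by omega)
  unfold g2
  rw [e1, e4]
  by_cases ha : 0 ≤ m + 1 - a
  · rw [pp_of_nonneg ha]
    by_cases hb : 0 ≤ m + 1 - b
    · rw [pp_of_nonneg hb]; push_cast; linarith
    · rw [pp_of_nonpos (show m + 1 - b ≤ 0 by omega)]; push_cast; linarith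
  · rw [pp_of_nonpos (show m + 1 - a ≤ 0 by omega)]
    by_cases hb : 0 ≤ m + 1 - b
    · rw [pp_of_nonneg hb]; push_cast; linarith
    · rw [pp_of_nonpos (show m + 1 - b ≤ 0 by omega)]; push_cast; linarith

/-- coefficient of `[a][b][d]`, shifted -/
noncomputable def g3 (a b d m : ℤ) : ℝ :=
  qq (m + 1) - qq (m + 1 - a) - qq (m + 1 - b) - qq (m + 1 - d) + qq (m + 1 - a - b)
  + qq (m + 1 - a - d) + qq (m + 1 - b - d) - qq (m + 1 - a - b - d)

theorem g4_succ (a b c d m : ℤ) : g4 a b (c + 1) d m = g4 a b c d m + g3 a b d (m - c) := by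
  have h := fun t => p3_sub t
  have e : ∀ t, qq t = p3 t - p3 (t - 1) := by
    intro t
    have := p3_sub (t - 1)
    rw [sub_add_cancel] at this
    linarith
  unfold g4 g3
  simp only [e]
  ring_nf

theorem g4_zero (a b d m : ℤ) : g4 a b 0 d m = 0 := by
  unfold g4; ring_nf

theorem g3_succ (a b d m : ℤ) : g3 (a + 1) b d m = g3 a b d m + g2 b d (m - 1 - a) := by
  have e : ∀ t, pp t = qq (t + 1) - qq t := fun t => (qq_sub t).symm
  unfold g3 g2
  simp only [e]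
  ring_nf

theorem g3_zero (b d m : ℤ) : g3 0 b d m = 0 := by
  unfold g3; ring_nf

theorem g4_sum (a b d m : ℤ) (c : ℕ) :
    g4 a b c d m = ∑ k ∈ Finset.range c, g3 a b d (m - k) := by
  induction c with
  | zero => simpa using g4_zero a b d m
  | succ n ih =>
    rw [Finset.sum_range_succ, ← ih]
    push_cast
    exact g4_succ a b n d m

theorem g3_sum (b d m : ℤ) (a : ℕ) :
    g3 a b d m = ∑ j ∈ Finset.range a, g2 b d (m - 1 - j) := by
  induction a with
  | zero => simpa using g3_zero b d m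
  | succ n ih =>
    rw [Finset.sum_range_succ, ← ih]
    push_cast
    exact g3_succ n b d m

theorem g3_nonneg {a b d : ℤ} (ha : 0 ≤ a) (hb : 0 ≤ b) (hd : 0 ≤ d) (m : ℤ) :
    0 ≤ g3 a b d m := by
  obtain ⟨a', rfl⟩ := Int.eq_ofNat_of_zero_le ha
  rw [g3_sum]
  exact Finset.sum_nonneg fun j _ => g2_nonneg hb hd _

theorem g4_nonneg {a b c d : ℤ} (ha : 0 ≤ a) (hb : 0 ≤ b) (hc : 0 ≤ c) (hd : 0 ≤ d) (m : ℤ) :
    0 ≤ g4 a b c d m := by
  obtain ⟨c', rfl⟩ := Int.eq_ofNat_of_zero_le hc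
  rw [g4_sum]
  exact Finset.sum_nonneg fun j _ => g3_nonneg ha hb hd _

/-- (2) -/
theorem f2_R1 {a b c d x : ℤ} (ha : 1 ≤ a) (hb : 1 ≤ b) (hc : 1 ≤ c) (hd : 1 ≤ d)
    (h1 : a + b < x) (h2 : x ≤ c + d) : (a : ℝ) * b ≤ g4 a b c d (x - 1) := by
  rw [← g4_swap23]
  obtain ⟨a', rfl⟩ := Int.eq_ofNat_of_zero_le (show 0 ≤ a by omega)
  obtain ⟨b', rfl⟩ := Int.eq_ofNat_of_zero_le (show 0 ≤ b by omega)
  rw [g4_sum]
  have h : ∀ k ∈ Finset.range b', (a' : ℝ) ≤ g3 (a' : ℤ) c d (x - 1 - k) := by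
    intro k hk
    rw [g3_sum]
    have h' : ∀ j ∈ Finset.range a', (1 : ℝ) ≤ g2 c d (x - 1 - k - 1 - j) := by
      intro j hj
      rw [Finset.mem_range] at hk hj
      have := g2_lower (a := c) (b := d) (m := x - 1 - k - 1 - j) (r := 1) (by norm_num)
        (by omega) hc hd (by omega)
      simpa using this
    have := Finset.sum_le_sum h'
    simpa using this
  have := Finset.sum_le_sum h
  simp only [Finset.sum_const, Finset.card_range, nsmul_eq_mul] at this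
  push_cast
  linarith

/-- (4), (5): both bounds used in regime R0. -/
theorem f2_R0 {a b c d x : ℤ} (ha : 1 ≤ a) (hb : 1 ≤ b) (hc : 1 ≤ c) (hd : 1 ≤ d)
    (h1 : x ≤ a + b) (h2 : x ≤ c + d) (hT : 0 < x - a - c) (hT2 : x - b - d ≤ 0)
    (hd1 : x - a - c + 1 ≤ d) :
    ((x - a - c : ℤ) : ℝ) + c ≤ g4 a b c d (x - 1) := by
  obtain ⟨a', rfl⟩ := Int.eq_ofNat_of_zero_le (show 0 ≤ a by omega)
  obtain ⟨c', rfl⟩ := Int.eq_ofNat_of_zero_le (show 0 ≤ c by omega)
  rw [g4_sum]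
  obtain ⟨c'', rfl⟩ : ∃ n, c' = n + 1 := ⟨c' - 1, by omega⟩
  obtain ⟨a'', rfl⟩ : ∃ n, a' = n + 1 := ⟨a' - 1, by omega⟩
  rw [Finset.sum_range_succ]
  have h : ∀ k ∈ Finset.range c'', (1 : ℝ) ≤ g3 ((a'' + 1 : ℕ) : ℤ) b d (x - 1 - k) := by
    intro k hk
    rw [g3_sum, Finset.sum_range_succ]
    have h3 : (0 : ℝ) ≤ ∑ j ∈ Finset.range a'', g2 b d (x - 1 - k - 1 - j) :=
      Finset.sum_nonneg fun j _ => g2_nonneg (by omega) (by omega) _
    rw [Finset.mem_range] at hk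
    have := g2_lower (a := b) (b := d) (m := x - 1 - k - 1 - a'') (r := 1) (by norm_num)
        (by push_cast at *; omega) hb hd (by push_cast at *; omega)
    push_cast at this
    linarith
  have h' := Finset.sum_le_sum h
  simp only [Finset.sum_const, Finset.card_range, nsmul_eq_mul, mul_one] at h'
  have h5 : ((x - (a'' + 1 : ℕ) - (c'' + 1 : ℕ) : ℤ) : ℝ) + 1 ≤
      g3 ((a'' + 1 : ℕ) : ℤ) b d (x - 1 - c'') := by
    rw [g3_sum, Finset.sum_range_succ]
    have h3 : (0 : ℝ) ≤ ∑ j ∈ Finset.range a'', g2 b d (x - 1 - c'' - 1 - j) :=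
      Finset.sum_nonneg fun j _ => g2_nonneg (by omega) (by omega) _
    have := g2_lower (a := b) (b := d) (m := x - 1 - c'' - 1 - a'')
      (r := x - (a'' + 1 : ℕ) - (c'' + 1 : ℕ) + 1) (by push_cast at *; omega)
        (by push_cast at *; omega) (by push_cast at *; omega) (by push_cast at *; omega)
        (by push_cast at *; omega)
    push_cast at this
    push_cast
    linarith
  push_cast at *
  linarith

end Pool.Agent.Helper98.C2K3
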