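import Pool.Agent.Helper98.C2K3.Trunc3
import Pool.Agent.Helper67.C2K.Nat98

/-!
PROJECT C2, kernel K_III+: all explicit windows with `x ≥ 2`, `y ≥ 2`.
-/

namespace Pool.Agent.Helper98.C2K3

theorem ppPart_le (a b c d x : ℤ) (hx : 1 ≤ x) (hy : x ≤ a + b + c + d - 1)
    (p v1 v2 v3 v4 w : ℝ) :
    W pp x p w - W pp (x - a - b) (p + v1 + v2) w - W pp (x - c - d) (p + v3 + v4) w
        + W pp (x - a - b - c - d) (p + v1 + v2 + v3 + v4) w ≤
      2 * w * ((p + ((x : ℝ) - 1) * w / 2)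
        - (if a + b < x then (p + ((x : ℝ) - 1) * w / 2) - ((a : ℝ) * w / 2 - v1)
            - ((b : ℝ) * w / 2 - v2) else 0)
        - (if c + d < x then (p + ((x : ℝ) - 1) * w / 2) - ((c : ℝ) * w / 2 - v3)
            - ((d : ℝ) * w / 2 - v4) else 0)) := by
  have key : ∀ (a b : ℤ) (v1 v2 : ℝ), - W pp (x - a - b) (p + v1 + v2) w ≤
      - (2 * w * (if a + b < x then (p + ((x : ℝ) - 1) * w / 2) - ((a : ℝ) * w / 2 - v1)
            - ((b : ℝ) * w / 2 - v2) else 0)) := by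
    intro a b v1 v2
    rcases lt_trichotomy (x - a - b) 0 with h | h | h
    · rw [W_pp_neg h, if_neg (by omega)]; simp
    · rw [h, W_pp_zero, if_neg (by omega)]
      nlinarith [sq_nonneg (p + v1 + v2)]
    · rw [W_pp_pos (by omega), if_pos (by omega)]
      apply le_of_eq
      push_cast
      ring
  have h1 := key a b v1 v2
  have h2 := key c d v3 v4
  rw [W_pp_neg (show x - a - b - c - d < 0 by omega), W_pp_pos hx]
  linarith

/-- natural windows -/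
theorem nat_OP {a b c d x : ℤ} (ha : 1 ≤ a) (hb : 1 ≤ b) (hc : 1 ≤ c) (hd : 1 ≤ d)
    (hx : 1 ≤ x) (hy : x ≤ a + b + c + d - 1) :
    ∃ lp l1 l2 l3 l4 lw : ℝ, ∀ p v1 v2 v3 v4 w : ℝ,
      lp * p + l1 * v1 + l2 * v2 + l3 * v3 + l4 * v4 + lw * w = 0 →
      QN a b c d x p v1 v2 v3 v4 w ≤ 0 := by
  obtain ⟨l0, l1, l2, l3, l4, l5, h⟩ := Helper67.C2K.nat3_98 a b c d x ha hb hc hd
  refine ⟨l0, -l1, -l2, -l3, -l4, l0 * ((x : ℝ) - 1) / 2 + l1 * a / 2 + l2 * b / 2 + l3 * c / 2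
    + l4 * d / 2 + l5, fun p v1 v2 v3 v4 w hl => ?_⟩
  have h1 := h (p + ((x : ℝ) - 1) * w / 2) ((a : ℝ) * w / 2 - v1) ((b : ℝ) * w / 2 - v2)
        ((c : ℝ) * w / 2 - v3) ((d : ℝ) * w / 2 - v4) w (by linarith)
  have h2 := ppPart_le a b c d x hx hy p v1 v2 v3 v4 w
  rw [QN_eq]
  linarith

/-- no strictly truncated index -/
theorem OPP_nat {a b c d x : ℤ} (ha : 1 ≤ a) (hb : 1 ≤ b) (hc : 1 ≤ c) (hd : 1 ≤ d)
    (hx : 1 ≤ x) (hy : x ≤ a + b + c + d - 1)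
    (h1 : ¬ (a = 1 ∧ kk (a - 2) b c d (x - 2) < 0))
    (h2 : ¬ (b = 1 ∧ kk a (b - 2) c d (x - 2) < 0))
    (h3 : ¬ (c = 1 ∧ kk a b (c - 2) d (x - 2) < 0))
    (h4 : ¬ (d = 1 ∧ kk a b c (d - 2) (x - 2) < 0)) : OPP a b c d x := by
  have t : ∀ (a : ℤ) (r : ℝ), ¬ (a = 1 ∧ r < 0) → tr a r = 0 := by
    intro a r h
    unfold tr
    split_ifs with h'
    · exact max_eq_left (by have := fun h'' => h ⟨h', h''⟩; linarith [not_lt.mp this])
    · rfl
  obtain ⟨lp, l1, l2, l3, l4, lw, h⟩ := nat_OP ha hb hc hd hx hy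
  refine ⟨lp, l1, l2, l3, l4, lw, fun p v1 v2 v3 v4 w _ _ _ _ hl => ?_⟩
  have := h p v1 v2 v3 v4 w hl
  unfold QP
  rw [t a _ h1, t b _ h2, t c _ h3, t d _ h4]
  linarith

/-- all sizes at least one -/
theorem OPP_pos {a b c d x : ℤ} (ha : 1 ≤ a) (hb : 1 ≤ b) (hc : 1 ≤ c) (hd : 1 ≤ d)
    (hx : 2 ≤ x) (hy : x ≤ a + b + c + d - 2) : OPP a b c d x := by
  by_cases h1 : a = 1 ∧ kk (a - 2) b c d (x - 2) < 0
  · obtain ⟨rfl, h1⟩ := h1
    exact trunc1 hb hc hd (by omega) (by omega) h1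
  by_cases h2 : b = 1 ∧ kk a (b - 2) c d (x - 2) < 0
  · obtain ⟨rfl, h2⟩ := h2
    apply OPP_swap12
    apply trunc1 ha hc hd (by omega) (by omega)
    rw [kk_swap12]; exact h2
  by_cases h3 : c = 1 ∧ kk a b (c - 2) d (x - 2) < 0
  · obtain ⟨rfl, h3⟩ := h3
    apply OPP_swapP
    apply trunc1 hd ha hb (by omega) (by omega)
    rw [kk_swapP]; exact h3
  by_cases h4 : d = 1 ∧ kk a b c (d - 2) (x - 2) < 0
  · obtain ⟨rfl, h4⟩ := h4
    apply OPP_swapP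
    apply OPP_swap12
    apply trunc1 hc ha hb (by omega) (by omega)
    rw [kk_swapP, kk_swap34]; exact h4
  exact OPP_nat ha hb hc hd (by omega) (by omega) h1 h2 h3 h4

/-! ### sizes zero -/

theorem kk_zero1 (b c d m : ℤ) : kk 0 b c d m = g2 b (c + d) m := by
  unfold kk g4
  rw [zero_add]
  ring_nf

theorem g2_zero (b m : ℤ) : g2 0 b m = 0 := by
  unfold g2; ring_nf

theorem g2_negone {b m : ℤ} (h1 : 0 ≤ m) (h2 : m + 2 ≤ b) : g2 (-1) b m = -1 := by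
  unfold g2
  rw [pp_of_nonneg (show 0 ≤ m + 1 by omega), pp_of_nonneg (show 0 ≤ m + 1 - -1 by omega),
    pp_of_nonpos (show m + 1 - b ≤ 0 by omega), pp_of_nonpos (show m + 1 - -1 - b ≤ 0 by omega)]
  push_cast
  ring

theorem QN_zero1 (b c d x : ℤ) (p v2 v3 v4 w : ℝ) :
    QN 0 b c d x p 0 v2 v3 v4 w =
      W pp x p w - W pp (x - b) (p + v2) w - W pp (x - c - d) (p + v3 + v4) w
        + W pp (x - b - c - d) (p + v2 + v3 + v4) w := by
  unfold QN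
  ring_nf

theorem tr_eq_zero_of_ne {a : ℤ} {r : ℝ} (h : a ≠ 1) : tr a r = 0 := by
  unfold tr; rw [if_neg h]

theorem tr_eq_zero_of_nonneg {a : ℤ} {r : ℝ} (h : 0 ≤ r) : tr a r = 0 := by
  unfold tr
  split_ifs
  · exact max_eq_left (by linarith)
  · rfl

theorem tr_one_negone : tr 1 (-1) = 1 := by unfold tr; norm_num

theorem W_pp_w0 (t : ℤ) (s : ℝ) : 0 ≤ W pp t s 0 := by
  rcases lt_trichotomy t 0 with h | h | h
  · rw [W_pp_neg h]
  · rw [h, W_pp_zero]; exact sq_nonneg s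
  · rw [W_pp_pos (by omega)]; simp

theorem zero_ge2 {b c d x : ℤ} (hb : 2 ≤ b) (hcd : 2 ≤ c + d)
    (hx : 2 ≤ x) (hy : x ≤ b + c + d - 2) : OPP 0 b c d x := by
  refine ⟨0, 0, 0, 0, 0, 1, fun p v1 v2 v3 v4 w h1 _ _ _ hl => ?_⟩
  obtain rfl : v1 = 0 := h1 rfl
  obtain rfl : w = 0 := by linarith
  unfold QP
  have t2 : tr b (kk 0 (b - 2) c d (x - 2)) = 0 := tr_eq_zero_of_ne (by omega)
  have t3 : tr c (kk 0 b (c - 2) d (x - 2)) = 0 := by
    by_cases h : c = 1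
    · apply tr_eq_zero_of_nonneg
      rw [kk_zero1]
      exact g2_nonneg (by omega) (by omega) _
    · exact tr_eq_zero_of_ne h
  have t4 : tr d (kk 0 b c (d - 2) (x - 2)) = 0 := by
    by_cases h : d = 1
    · apply tr_eq_zero_of_nonneg
      rw [kk_zero1]
      exact g2_nonneg (by omega) (by omega) _
    · exact tr_eq_zero_of_ne h
  rw [t2, t3, t4, QN_zero1, W_pp_pos (show 1 ≤ x by omega),
    W_pp_neg (show x - b - c - d < 0 by omega)]
  have e1 := W_pp_w0 (x - b) (p + v2)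
  have e2 := W_pp_w0 (x - c - d) (p + v3 + v4)
  linarith

theorem zero_b1 {c d x : ℤ}
    (hx : 2 ≤ x) (hy : x ≤ 1 + c + d - 2) : OPP 0 1 c d x := by
  refine ⟨0, 0, -1, 0, 0, 1, fun p v1 v2 v3 v4 w h1 _ _ _ hl => ?_⟩
  obtain rfl : v1 = 0 := h1 rfl
  obtain rfl : w = v2 := by linarith
  unfold QP
  have t2 : tr 1 (kk 0 (1 - 2) c d (x - 2)) = 1 := by
    rw [kk_zero1, show (1 : ℤ) - 2 = -1 by norm_num, g2_negone (by omega) (by omega),
      tr_one_negone]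
  have t3 : tr c (kk 0 1 (c - 2) d (x - 2)) = 0 := by
    by_cases h : c = 1
    · apply tr_eq_zero_of_nonneg
      rw [kk_zero1]
      exact g2_nonneg (by omega) (by omega) _
    · exact tr_eq_zero_of_ne h
  have t4 : tr d (kk 0 1 c (d - 2) (x - 2)) = 0 := by
    by_cases h : d = 1
    · apply tr_eq_zero_of_nonneg
      rw [kk_zero1]
      exact g2_nonneg (by omega) (by omega) _
    · exact tr_eq_zero_of_ne h
  rw [t2, t3, t4, QN_zero1, W_pp_pos (show 1 ≤ x by omega), W_pp_pos (show 1 ≤ x - 1 by omega),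
    W_pp_neg (show x - c - d < 0 by omega), W_pp_neg (show x - 1 - c - d < 0 by omega)]
  push_cast
  apply le_of_eq
  ring

theorem zero_c1 {b x : ℤ} (hx : 2 ≤ x) (hy : x ≤ b + 1 - 2) : OPP 0 b 1 0 x := by
  refine ⟨0, 0, 0, -1, 0, 1, fun p v1 v2 v3 v4 w h1 _ _ h4 hl => ?_⟩
  obtain rfl : v1 = 0 := h1 rfl
  obtain rfl : v4 = 0 := h4 rfl
  obtain rfl : w = v3 := by linarith
  unfold QP
  have t2 : tr b (kk 0 (b - 2) 1 0 (x - 2)) = 0 := tr_eq_zero_of_ne (by omega)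
  have t3 : tr 1 (kk 0 b (1 - 2) 0 (x - 2)) = 1 := by
    rw [kk_zero1, show (1 : ℤ) - 2 + 0 = -1 by norm_num, g2_swap,
      g2_negone (by omega) (by omega), tr_one_negone]
  rw [t2, t3, QN_zero1, W_pp_pos (show 1 ≤ x by omega), W_pp_neg (show x - b < 0 by omega),
    W_pp_pos (show 1 ≤ x - 1 - 0 by omega), W_pp_neg (show x - b - 1 - 0 < 0 by omega)]
  push_cast
  apply le_of_eq
  ring

/-- first size zero -/
theorem OPP_zero1 {b c d x : ℤ} (hb : 0 ≤ b) (hc : 0 ≤ c) (hd : 0 ≤ d)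
    (hx : 2 ≤ x) (hy : x ≤ b + c + d - 2) : OPP 0 b c d x := by
  by_cases b0 : b = 0
  · subst b0
    refine ⟨0, 0, 0, 0, 0, 0, fun p v1 v2 v3 v4 w h1 h2 _ _ hl => ?_⟩
    obtain rfl : v1 = 0 := h1 rfl
    obtain rfl : v2 = 0 := h2 rfl
    unfold QP
    rw [kk_zero1 0 (c - 2), kk_zero1 0 c (d - 2), g2_zero, g2_zero,
      tr_eq_zero_of_nonneg (le_refl _), tr_eq_zero_of_nonneg (le_refl _), QN_zero1]
    apply le_of_eq
    ring_nf
  by_cases b1 : b = 1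
  · subst b1
    exact zero_b1 hx hy
  rcases lt_trichotomy (c + d) 1 with h | h | h
  · obtain rfl : c = 0 := by omega
    obtain rfl : d = 0 := by omega
    refine ⟨0, 0, 0, 0, 0, 0, fun p v1 v2 v3 v4 w h1 h2 h3 h4 hl => ?_⟩
    obtain rfl : v1 = 0 := h1 rfl
    obtain rfl : v3 = 0 := h3 rfl
    obtain rfl : v4 = 0 := h4 rfl
    unfold QP
    rw [tr_eq_zero_of_ne b1, QN_zero1]
    apply le_of_eq
    ring_nf
  · rcases (by omega : (c = 1 ∧ d = 0) ∨ (c = 0 ∧ d = 1)) with ⟨rfl, rfl⟩ | ⟨rfl, rfl⟩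
    · exact zero_c1 hx (by omega)
    · apply OPP_swap34
      exact zero_c1 hx (by omega)
  · exact zero_ge2 (by omega) (by omega) hx hy

/-- all explicit windows -/
theorem OPP_all {a b c d x : ℤ} (ha : 0 ≤ a) (hb : 0 ≤ b) (hc : 0 ≤ c) (hd : 0 ≤ d)
    (hx : 2 ≤ x) (hy : x ≤ a + b + c + d - 2) : OPP a b c d x := by
  by_cases h1 : a = 0
  · subst h1; exact OPP_zero1 hb hc hd hx (by omega)
  by_cases h2 : b = 0
  · subst h2; exact OPP_swap12 (OPP_zero1 ha hc hd hx (by omega))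
  by_cases h3 : c = 0
  · subst h3; exact OPP_swapP (OPP_zero1 hd ha hb hx (by omega))
  by_cases h4 : d = 0
  · subst h4; exact OPP_swapP (OPP_swap12 (OPP_zero1 hc ha hb hx (by omega)))
  exact OPP_pos (by omega) (by omega) (by omega) (by omega) hx hy

/-! ### outside of the support -/

theorem g2_out {a b m : ℤ} (ha : 0 ≤ a) (hb : 0 ≤ b) (hm : m < 0) : g2 a b m = 0 := by
  unfold g2
  rw [pp_of_nonpos (by omega), pp_of_nonpos (by omega), pp_of_nonpos (by omega),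
    pp_of_nonpos (by omega)]
  ring

theorem kk_out {a b c d m : ℤ} (ha : 0 ≤ a) (hb : 0 ≤ b) (hc : 0 ≤ c) (hd : 0 ≤ d)
    (hm : m < 0) : kk a b c d m = 0 := by
  unfold kk g4
  rw [g2_out (by omega) (by omega) hm]
  rw [p3_of_nonpos (show m + 1 ≤ 1 by omega), p3_of_nonpos (show m + 1 - a ≤ 1 by omega),
    p3_of_nonpos (show m + 1 - b ≤ 1 by omega), p3_of_nonpos (show m + 1 - c ≤ 1 by omega),
    p3_of_nonpos (show m + 1 - d ≤ 1 by omega), p3_of_nonpos (show m + 1 - a - b ≤ 1 by omega),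
    p3_of_nonpos (show m + 1 - a - c ≤ 1 by omega), p3_of_nonpos (show m + 1 - a - d ≤ 1 by omega),
    p3_of_nonpos (show m + 1 - b - c ≤ 1 by omega), p3_of_nonpos (show m + 1 - b - d ≤ 1 by omega),
    p3_of_nonpos (show m + 1 - c - d ≤ 1 by omega),
    p3_of_nonpos (show m + 1 - a - b - c ≤ 1 by omega),
    p3_of_nonpos (show m + 1 - a - b - d ≤ 1 by omega),
    p3_of_nonpos (show m + 1 - a - c - d ≤ 1 by omega),
    p3_of_nonpos (show m + 1 - b - c - d ≤ 1 by omega),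
    p3_of_nonpos (show m + 1 - a - b - c - d ≤ 1 by omega)]
  ring

theorem kk_out' {b c d m : ℤ} (hb : 0 ≤ b) (hc : 0 ≤ c) (hd : 0 ≤ d)
    (hm : m < 0) : kk (1 - 2) b c d m ≤ 0 := by
  rw [kk_k1]
  have h3 := g3_nonneg hb hc hd (m + 1)
  by_cases h : 1 ≤ b
  · rw [g2_out (by omega) (by omega) hm]
    linarith
  · obtain rfl : b = 0 := by omega
    have : g2 (0 - 1) (c + d) m ≤ 0 := by
      unfold g2
      rw [pp_of_nonpos (show m + 1 ≤ 0 by omega), pp_of_nonpos (show m + 1 - (c + d) ≤ 0 by omega)]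
      by_cases h2 : 0 ≤ m + 1 - (0 - 1) - (c + d)
      · have e1 : c + d = 0 ∨ 0 < c + d := by omega
        rw [pp_of_nonneg h2, pp_of_nonneg (by omega)]
        have : (0 : ℝ) ≤ c := by exact_mod_cast hc
        have : (0 : ℝ) ≤ d := by exact_mod_cast hd
        push_cast
        linarith
      · rw [pp_of_nonpos (show m + 1 - (0 - 1) - (c + d) ≤ 0 by omega)]
        have := pp_nonneg (m + 1 - (0 - 1))
        linarith
    linarith

end Pool.Agent.Helper98.C2K3
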