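import Pool.Agent.Helper98.C2K3.Expl
import Pool.Agent.Helper59.C2K.Coef

/-!
PROJECT C2, kernel K_III+: coefficients of the ring kernel, and GoalK3.
-/

namespace Pool.Agent.Helper98.C2K3

open LaurentPolynomial Pool.Agent.Helper52.C2 Pool.Agent.Helper59.C2K

theorem q4_eq (t : ℤ) : q4 t = p3 (t + 2) := by
  unfold q4
  by_cases h : 0 ≤ t
  · rw [if_pos h, p3_of_nonneg (by omega)]
    push_cast
    ring
  · rw [if_neg h, p3_of_nonpos (by omega)]

theorem coeff_K3 (a b c d i : ℤ) :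
    (geo (a + b) * geo (c + d) + T 1 * (geo a * geo b * geo c * geo d)).coeff i
      = kk a b c d i := by
  have h : (geo (a + b) * geo (c + d) + T 1 * (geo a * geo b * geo c * geo d))
      * (1 - T 1) ^ 4 =
      ((1 - C 2 * T 1 + T 2) - (T (a + b) - C 2 * T (a + b + 1) + T (a + b + 2))
        - (T (c + d) - C 2 * T (c + d + 1) + T (c + d + 2))
        + (T (a + b + c + d) - C 2 * T (a + b + c + d + 1) + T (a + b + c + d + 2)))
      + (T 1 - T (1 + a) - T (1 + b) - T (1 + c) - T (1 + d)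
        + T (1 + a + b) + T (1 + a + c) + T (1 + a + d) + T (1 + b + c) + T (1 + b + d)
        + T (1 + c + d) - T (1 + a + b + c) - T (1 + a + b + d) - T (1 + a + c + d)
        - T (1 + b + c + d) + T (1 + a + b + c + d)) := by
    have e1 := geo_mul (a + b)
    have e2 := geo_mul (c + d)
    have f1 := geo_mul a
    have f2 := geo_mul b
    have f3 := geo_mul c
    have f4 := geo_mul d
    have h2 : (T 2 : ℝ[T;T⁻¹]) = T 1 * T 1 := by rw [← T_add]; norm_num
    have hc : (C 2 : ℝ[T;T⁻¹]) = 2 := map_ofNat C 2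
    calc _ = (geo (a + b) * (1 - T 1)) * (geo (c + d) * (1 - T 1)) * (1 - T 1) ^ 2
          + T 1 * ((geo a * (1 - T 1)) * (geo b * (1 - T 1)) * (geo c * (1 - T 1))
            * (geo d * (1 - T 1))) := by ring
      _ = _ := by
        rw [e1, e2, f1, f2, f3, f4]
        simp only [T_add, h2, hc]
        ring
  rw [coeff_q4 _ _ h]
  simp only [lam_add, lam_sub, lam_T, lam_CT, lam_one, q4_eq]
  unfold kk g2 g4
  simp only [pp_eq_p3]
  ring_nf

/-! ### the window -/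

/-- indicator of `X` -/
def hx {J : Type} : Dir J → ℤ
  | .X => 1
  | _ => 0

/-- indicator of `V k` -/
def ev {J : Type} [DecidableEq J] (k : J) : Dir J → ℤ
  | .V l => if l = k then 1 else 0
  | _ => 0

theorem sum_dir {J : Type} [Fintype J] (f : Dir J → ℝ) :
    ∑ a, f a = f .X + f .Y + ∑ k, f (.V k) := by
  let e : Option (Option J) ≃ Dir J :=
    { toFun := fun o => match o with
        | none => Dir.X
        | some none => Dir.Y
        | some (some k) => Dir.V k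
      invFun := fun d => match d with
        | .X => none
        | .Y => some none
        | .V k => some (some k)
      left_inv := by rintro (_ | _ | k) <;> rfl
      right_inv := by rintro (_ | _ | k) <;> rfl }
  rw [← e.sum_comp, Fintype.sum_option, Fintype.sum_option]
  show f .X + (f .Y + ∑ k, f (.V k)) = _
  ring

/-- the explicit coefficient function -/
noncomputable def KK (n : Fin 4 → ℤ) (i : ℤ) : ℝ := kk (n 0) (n 1) (n 2) (n 3) i

theorem K3_coeff (n : Fin 4 → ℤ) (i : ℤ) :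
    (K3 (asg (fun _ => True) (fun _ => U 0) n)).coeff i = KK n i := by
  unfold KK
  rw [← coeff_K3]
  have e : asg (fun _ => True) (fun _ => U 0) n = fun k => U (n k) := by
    funext k; unfold asg; simp
  rw [e]
  unfold K3
  rw [U_mul_F, U_mul_F]
  rfl

/-- natural window -/
noncomputable def gw (n : Fin 4 → ℤ) (i : ℤ) (a b : Dir (Fin 4)) : ℝ :=
  kk (n 0 - ev 0 a - ev 0 b) (n 1 - ev 1 a - ev 1 b) (n 2 - ev 2 a - ev 2 b)
    (n 3 - ev 3 a - ev 3 b) (i + hx a + hx b)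

theorem term {ι : Type} [Fintype ι] (g : ℤ → ℝ) (f : ι → ι → ℤ) (t : ℤ) (χ : ι → ℤ)
    (hχ : ∀ a, χ a = 0 ∨ χ a = 1) (hf : ∀ a b, f a b = t - 1 + χ a + χ b) (v : ι → ℝ) :
    ∑ a, ∑ b, v a * g (f a b) * v b = W g t (∑ a, (χ a : ℝ) * v a) (∑ a, v a) := by
  rw [← sum_W g t χ hχ v]
  simp only [hf]

theorem quad_add {ι : Type} [Fintype ι] (f g : ι → ι → ℝ) (v : ι → ℝ) :
    quad (fun a b => f a b + g a b) v = quad f v + quad g v := by
  unfold quad
  simp only [mul_add, add_mul, Finset.sum_add_distrib]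

theorem quad_sub {ι : Type} [Fintype ι] (f g : ι → ι → ℝ) (v : ι → ℝ) :
    quad (fun a b => f a b - g a b) v = quad f v - quad g v := by
  unfold quad
  simp only [mul_sub, sub_mul, Finset.sum_sub_distrib]

/-- subset terms -/
theorem quad_term (g : ℤ → ℝ) (n : Fin 4 → ℤ) (i : ℤ) (s : Fin 4 → ℤ)
    (hs : ∀ k, s k = 0 ∨ s k = 1) (v : Dir (Fin 4) → ℝ) :
    quad (fun a b => g (i + hx a + hx b + 1 - s 0 * (n 0 - ev 0 a - ev 0 b)
      - s 1 * (n 1 - ev 1 a - ev 1 b) - s 2 * (n 2 - ev 2 a - ev 2 b)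
      - s 3 * (n 3 - ev 3 a - ev 3 b))) v =
    W g (i + 2 - s 0 * n 0 - s 1 * n 1 - s 2 * n 2 - s 3 * n 3)
      (v .X + s 0 * v (.V 0) + s 1 * v (.V 1) + s 2 * v (.V 2) + s 3 * v (.V 3))
      (v .X + v .Y + v (.V 0) + v (.V 1) + v (.V 2) + v (.V 3)) := by
  unfold quad
  rw [term g _ (i + 2 - s 0 * n 0 - s 1 * n 1 - s 2 * n 2 - s 3 * n 3)
    (fun a => hx a + s 0 * ev 0 a + s 1 * ev 1 a + s 2 * ev 2 a + s 3 * ev 3 a)]
  · congr 1
    · rw [sum_dir, Fin.sum_univ_four]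
      simp [hx, ev]
      ring
    · rw [sum_dir, Fin.sum_univ_four]
      ring
  · rintro (_ | _ | k)
    · right; simp [hx, ev]
    · left; simp [hx, ev]
    · have h := hs k
      fin_cases k <;> simp [hx, ev] <;> simpa using h
  · intro a b
    ring

theorem quad_gw (n : Fin 4 → ℤ) (i : ℤ) (v : Dir (Fin 4) → ℝ) :
    quad (gw n i) v = QN (n 0) (n 1) (n 2) (n 3) (i + 2) (v .X) (v (.V 0)) (v (.V 1))
      (v (.V 2)) (v (.V 3)) (v .X + v .Y + v (.V 0) + v (.V 1) + v (.V 2) + v (.V 3)) := by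
  have H : ∀ (g : ℤ → ℝ) (s0 s1 s2 s3 : ℤ), (s0 = 0 ∨ s0 = 1) → (s1 = 0 ∨ s1 = 1) →
      (s2 = 0 ∨ s2 = 1) → (s3 = 0 ∨ s3 = 1) →
      quad (fun a b => g (i + hx a + hx b + 1 - s0 * (n 0 - ev 0 a - ev 0 b)
      - s1 * (n 1 - ev 1 a - ev 1 b) - s2 * (n 2 - ev 2 a - ev 2 b)
      - s3 * (n 3 - ev 3 a - ev 3 b))) v =
    W g (i + 2 - s0 * n 0 - s1 * n 1 - s2 * n 2 - s3 * n 3)
      (v .X + s0 * v (.V 0) + s1 * v (.V 1) + s2 * v (.V 2) + s3 * v (.V 3))
      (v .X + v .Y + v (.V 0) + v (.V 1) + v (.V 2) + v (.V 3)) := by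
    intro g s0 s1 s2 s3 h0 h1 h2 h3
    exact quad_term g n i ![s0, s1, s2, s3] (by intro k; fin_cases k <;> simpa) v
  have z : (0 : ℤ) = 0 ∨ (0 : ℤ) = 1 := Or.inl rfl
  have o : (1 : ℤ) = 0 ∨ (1 : ℤ) = 1 := Or.inr rfl
  have A0 := H pp 0 0 0 0 z z z z
  have A1 := H pp 1 1 0 0 o o z z
  have A2 := H pp 0 0 1 1 z z o o
  have A3 := H pp 1 1 1 1 o o o o
  have B0 := H p3 0 0 0 0 z z z z
  have B1 := H p3 1 0 0 0 o z z z
  have B2 := H p3 0 1 0 0 z o z z
  have B3 := H p3 0 0 1 0 z z o z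
  have B4 := H p3 0 0 0 1 z z z o
  have B12 := H p3 1 1 0 0 o o z z
  have B13 := H p3 1 0 1 0 o z o z
  have B14 := H p3 1 0 0 1 o z z o
  have B23 := H p3 0 1 1 0 z o o z
  have B24 := H p3 0 1 0 1 z o z o
  have B34 := H p3 0 0 1 1 z z o o
  have B123 := H p3 1 1 1 0 o o o z
  have B124 := H p3 1 1 0 1 o o z o
  have B134 := H p3 1 0 1 1 o z o o
  have B234 := H p3 0 1 1 1 z o o o
  have B1234 := H p3 1 1 1 1 o o o o
  simp only [zero_mul, one_mul, sub_zero, Int.cast_zero, Int.cast_one, add_zero] at *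
  have e : gw n i = fun a b =>
    (pp (i + hx a + hx b + 1)
      - pp (i + hx a + hx b + 1 - (n 0 - ev 0 a - ev 0 b) - (n 1 - ev 1 a - ev 1 b))
      - pp (i + hx a + hx b + 1 - (n 2 - ev 2 a - ev 2 b) - (n 3 - ev 3 a - ev 3 b))
      + pp (i + hx a + hx b + 1 - (n 0 - ev 0 a - ev 0 b) - (n 1 - ev 1 a - ev 1 b)
        - (n 2 - ev 2 a - ev 2 b) - (n 3 - ev 3 a - ev 3 b)))
    + g4 (n 0 - ev 0 a - ev 0 b) (n 1 - ev 1 a - ev 1 b) (n 2 - ev 2 a - ev 2 b)
      (n 3 - ev 3 a - ev 3 b) (i + hx a + hx b) := by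
    funext a b
    unfold gw kk g2
    ring_nf
  rw [e]
  unfold g4
  simp only [quad_add, quad_sub]
  unfold QN
  rw [A0, A1, A2, A3, B0, B1, B2, B3, B4, B12, B13, B14, B23, B24, B34, B123, B124, B134, B234,
    B1234]

end Pool.Agent.Helper98.C2K3
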