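import Pool.Agent.Helper98.C2K3.Bounds

/-!
PROJECT C2, kernel K_III+: truncated windows.
-/

namespace Pool.Agent.Helper98.C2K3

/-- the correction of a truncated diagonal entry -/
noncomputable def tr (c : ℤ) (nat : ℝ) : ℝ := if c = 1 then max 0 (-nat) else 0

theorem tr_nonneg (c : ℤ) (r : ℝ) : 0 ≤ tr c r := by
  unfold tr; split_ifs
  · exact le_max_left _ _
  · exact le_refl _

/-- the POS form -/
noncomputable def QP (a b c d x : ℤ) (p v1 v2 v3 v4 w : ℝ) : ℝ :=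
  QN a b c d x p v1 v2 v3 v4 w + tr a (kk (a - 2) b c d (x - 2)) * v1 ^ 2
  + tr b (kk a (b - 2) c d (x - 2)) * v2 ^ 2 + tr c (kk a b (c - 2) d (x - 2)) * v3 ^ 2
  + tr d (kk a b c (d - 2) (x - 2)) * v4 ^ 2

/-- one-positivity of the POS form in the allowed directions -/
def OPP (a b c d x : ℤ) : Prop :=
  ∃ lp l1 l2 l3 l4 lw : ℝ, ∀ p v1 v2 v3 v4 w : ℝ,
    (a = 0 → v1 = 0) → (b = 0 → v2 = 0) → (c = 0 → v3 = 0) → (d = 0 → v4 = 0) →
    lp * p + l1 * v1 + l2 * v2 + l3 * v3 + l4 * v4 + lw * w = 0 →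
    QP a b c d x p v1 v2 v3 v4 w ≤ 0

theorem OPP_swap12 {a b c d x : ℤ} (h : OPP b a c d x) : OPP a b c d x := by
  obtain ⟨lp, l1, l2, l3, l4, lw, h⟩ := h
  refine ⟨lp, l2, l1, l3, l4, lw, fun p v1 v2 v3 v4 w ha hb hc hd hl => ?_⟩
  have := h p v2 v1 v3 v4 w hb ha hc hd (by linarith)
  unfold QP at *
  rw [QN_swap12, kk_swap12 a (b - 2), kk_swap12 (a - 2) b, kk_swap12 a b, kk_swap12 a b] at this
  linarith

theorem OPP_swap34 {a b c d x : ℤ} (h : OPP a b d c x) : OPP a b c d x := by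
  obtain ⟨lp, l1, l2, l3, l4, lw, h⟩ := h
  refine ⟨lp, l1, l2, l4, l3, lw, fun p v1 v2 v3 v4 w ha hb hc hd hl => ?_⟩
  have := h p v1 v2 v4 v3 w ha hb hd hc (by linarith)
  unfold QP at *
  rw [QN_swap34, kk_swap34 a b c (d - 2), kk_swap34 a b (c - 2) d,
    kk_swap34 (a - 2) b c d, kk_swap34 a (b - 2) c d] at this
  linarith

theorem OPP_swapP {a b c d x : ℤ} (h : OPP c d a b x) : OPP a b c d x := by
  obtain ⟨lp, l1, l2, l3, l4, lw, h⟩ := h
  refine ⟨lp, l3, l4, l1, l2, lw, fun p v1 v2 v3 v4 w ha hb hc hd hl => ?_⟩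
  have := h p v3 v4 v1 v2 w hc hd ha hb (by linarith)
  unfold QP at *
  rw [QN_swapP, kk_swapP a b (c - 2) d, kk_swapP a b c (d - 2),
    kk_swapP (a - 2) b c d, kk_swapP a (b - 2) c d] at this
  linarith

/-- the form without `v1`, for `a = 1` -/
noncomputable def RN (b c d x : ℤ) (p v2 v3 v4 t : ℝ) : ℝ :=
  (W pp x p t - W pp (x - 1 - b) (p + v2) t - W pp (x - c - d) (p + v3 + v4) t
    + W pp (x - 1 - b - c - d) (p + v2 + v3 + v4) t)
  + (W qq x p t - W qq (x - b) (p + v2) t - W qq (x - c) (p + v3) t - W qq (x - d) (p + v4) t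
    + W qq (x - b - c) (p + v2 + v3) t + W qq (x - b - d) (p + v2 + v4) t
    + W qq (x - c - d) (p + v3 + v4) t - W qq (x - b - c - d) (p + v2 + v3 + v4) t)

/-- the row of `v1`, for `a = 1` -/
noncomputable def LL (b c d x : ℤ) (p v2 v3 v4 t : ℝ) : ℝ :=
  (pp x * p + pp (x - 1) * (t - p)) - (pp (x - b) * (p + v2) + pp (x - 1 - b) * (t - p - v2))
  - (pp (x - c - d) * (p + v3 + v4) + pp (x - c - d - 1) * (t - p - v3 - v4))
  + (pp (x - b - c - d) * (p + v2 + v3 + v4)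
    + pp (x - 1 - b - c - d) * (t - p - v2 - v3 - v4))

set_option maxRecDepth 20000 in
theorem QN_one (b c d x : ℤ) (p v1 v2 v3 v4 t : ℝ) :
    QN 1 b c d x p v1 v2 v3 v4 (t + v1) =
      RN b c d x p v2 v3 v4 t + 2 * v1 * LL b c d x p v2 v3 v4 t
      + kk (1 - 2) b c d (x - 2) * v1 ^ 2 := by
  have e : ∀ t, qq t = p3 t - p3 (t - 1) := by
    intro t
    have := p3_sub (t - 1)
    rw [sub_add_cancel] at this
    linarith
  unfold QN RN LL kk g2 g4 W
  simp only [e]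
  ring_nf

end Pool.Agent.Helper98.C2K3
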