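import Pool.Agent.Helper98.C2K3.Trunc

/-!
PROJECT C2, kernel K_III+: truncated windows, the inequality on the row hyperplane.
-/

namespace Pool.Agent.Helper98.C2K3

/-- indicator of `0 ≤ t` -/
noncomputable def st (t : ℤ) : ℝ := if 0 ≤ t then 1 else 0

theorem st_of_nonneg {t : ℤ} (h : 0 ≤ t) : st t = 1 := by simp [st, h]

theorem st_of_neg {t : ℤ} (h : t < 0) : st t = 0 := by simp [st, not_le.mpr h]

theorem st_mono {s t : ℤ} (h : s ≤ t) : st s ≤ st t := by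
  by_cases hs : 0 ≤ s
  · rw [st_of_nonneg hs, st_of_nonneg (by omega)]
  · rw [st_of_neg (by omega)]; unfold st; split_ifs <;> norm_num

theorem st_nonneg (t : ℤ) : 0 ≤ st t := by unfold st; split_ifs <;> norm_num

theorem st_le_one (t : ℤ) : st t ≤ 1 := by unfold st; split_ifs <;> norm_num

theorem W_qq (t : ℤ) (s w : ℝ) :
    W qq t s w = st (t - 1) * (s + ((t : ℝ) - 1) * w) ^ 2 - qq t * w ^ 2 := by
  by_cases h : 1 ≤ t
  · have := W_qq_nonneg (t := t - 1) (by omega) s w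
    rw [sub_add_cancel] at this
    rw [this, st_of_nonneg (by omega), qq_of_nonneg (by omega)]
    push_cast
    ring
  · have := W_qq_neg (t := t - 1) (by omega) s w
    rw [sub_add_cancel] at this
    rw [this, st_of_neg (by omega), qq_of_nonpos (by omega)]
    ring

/-- `pp` row -/
theorem pp_row (t : ℤ) (s w : ℝ) :
    pp (t + 1) * s + pp t * (w - s) = st t * (s + (t : ℝ) * w) := by
  by_cases h : 0 ≤ t
  · rw [st_of_nonneg h, pp_of_nonneg h, pp_of_nonneg (by omega)]; push_cast; ring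
  · rw [st_of_neg (by omega), pp_of_nonpos (by omega), pp_of_nonpos (by omega)]; ring

theorem negW_pp (t : ℤ) (s w : ℝ) :
    - W pp t s w ≤ st t * (-2 * w * (s + (t : ℝ) * w) + ((t : ℝ) + 1) * w ^ 2) := by
  rcases lt_trichotomy t 0 with h | h | h
  · rw [W_pp_neg h, st_of_neg h]; simp
  · subst h
    rw [W_pp_zero, st_of_nonneg (le_refl _)]
    push_cast
    nlinarith [sq_nonneg (s - w)]
  · rw [W_pp_pos (by omega), st_of_nonneg (by omega)]
    apply le_of_eq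
    ring

theorem negW_pp' (t : ℤ) (s w : ℝ) :
    - W pp (t + 1) s w ≤ st t * (-2 * w * (s + (t : ℝ) * w) + (t : ℝ) * w ^ 2) := by
  rcases lt_trichotomy (t + 1) 0 with h | h | h
  · rw [W_pp_neg h, st_of_neg (by omega)]; simp
  · rw [h, W_pp_zero, st_of_neg (by omega)]
    nlinarith [sq_nonneg s]
  · rw [W_pp_pos (by omega), st_of_nonneg (by omega)]
    apply le_of_eq
    push_cast
    ring

theorem LL_eq {b c d x : ℤ} (hx : 1 ≤ x) (hy : x ≤ b + c + d - 1) (p v2 v3 v4 t : ℝ) :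
    LL b c d x p v2 v3 v4 t = (p + ((x : ℝ) - 1) * t)
      - st (x - 1 - b) * (p + v2 + ((x : ℝ) - 1 - b) * t)
      - st (x - 1 - c - d) * (p + v3 + v4 + ((x : ℝ) - 1 - c - d) * t) := by
  have h1 := pp_row (x - 1) p t
  have h2 := pp_row (x - 1 - b) (p + v2) t
  have h3 := pp_row (x - 1 - c - d) (p + v3 + v4) t
  rw [st_of_nonneg (show 0 ≤ x - 1 by omega)] at h1
  rw [show x - 1 - b + 1 = x - b by ring] at h2
  rw [show x - 1 - c - d + 1 = x - c - d by ring] at h3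
  rw [sub_add_cancel] at h1
  unfold LL
  rw [pp_of_nonpos (show x - b - c - d ≤ 0 by omega),
    pp_of_nonpos (show x - 1 - b - c - d ≤ 0 by omega),
    show x - c - d - 1 = x - 1 - c - d by ring]
  push_cast at *
  linarith

/-- the square part -/
noncomputable def AA (b c d x : ℤ) (p v2 v3 v4 t : ℝ) : ℝ :=
  (p + ((x : ℝ) - 1) * t) ^ 2 - st (x - 1 - b) * (p + v2 + ((x : ℝ) - 1 - b) * t) ^ 2
  - st (x - 1 - c) * (p + v3 + ((x : ℝ) - 1 - c) * t) ^ 2
  - st (x - 1 - d) * (p + v4 + ((x : ℝ) - 1 - d) * t) ^ 2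
  + st (x - 1 - b - c) * (p + v2 + v3 + ((x : ℝ) - 1 - b - c) * t) ^ 2
  + st (x - 1 - b - d) * (p + v2 + v4 + ((x : ℝ) - 1 - b - d) * t) ^ 2
  + st (x - 1 - c - d) * (p + v3 + v4 + ((x : ℝ) - 1 - c - d) * t) ^ 2

theorem RN_le {b c d x : ℤ} (hb : 1 ≤ b) (hc : 1 ≤ c) (hd : 1 ≤ d) (hx : 1 ≤ x)
    (hy : x ≤ b + c + d - 1) (p v2 v3 v4 t : ℝ) :
    RN b c d x p v2 v3 v4 t ≤ AA b c d x p v2 v3 v4 t + 2 * t * LL b c d x p v2 v3 v4 t := by
  have h0 : W pp x p t = 2 * t * (p + ((x : ℝ) - 1) * t / 2) := W_pp_pos hx p t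
  have h2 := negW_pp (x - 1 - b) (p + v2) t
  have h3 := negW_pp' (x - 1 - c - d) (p + v3 + v4) t
  rw [show x - 1 - c - d + 1 = x - c - d by ring] at h3
  have h4 : W pp (x - 1 - b - c - d) (p + v2 + v3 + v4) t = 0 := W_pp_neg (by omega) _ _
  have hN := g3_nonneg (a := b) (b := c) (d := d) (by omega) (by omega) (by omega) (x - 1)
  have hqq : W qq x p t - W qq (x - b) (p + v2) t - W qq (x - c) (p + v3) t
      - W qq (x - d) (p + v4) t
    + W qq (x - b - c) (p + v2 + v3) t + W qq (x - b - d) (p + v2 + v4) t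
    + W qq (x - c - d) (p + v3 + v4) t - W qq (x - b - c - d) (p + v2 + v3 + v4) t =
      AA b c d x p v2 v3 v4 t - g3 b c d (x - 1) * t ^ 2 := by
    simp only [W_qq]
    rw [st_of_neg (show x - b - c - d - 1 < 0 by omega),
      st_of_nonneg (show 0 ≤ x - 1 by omega)]
    unfold AA g3
    simp only [sub_add_cancel]
    rw [show x - b - 1 = x - 1 - b by ring, show x - c - 1 = x - 1 - c by ring,
      show x - d - 1 = x - 1 - d by ring, show x - b - c - 1 = x - 1 - b - c by ring,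
      show x - b - d - 1 = x - 1 - b - d by ring, show x - c - d - 1 = x - 1 - c - d by ring]
    push_cast
    ring
  have hnu : 0 ≤ ((x : ℝ) - 1) - st (x - 1 - b) * ((x : ℝ) - b)
      - st (x - 1 - c - d) * ((x : ℝ) - 1 - c - d) := by
    have e1 : (1 : ℝ) ≤ b := by exact_mod_cast hb
    have e2 : (1 : ℝ) ≤ c := by exact_mod_cast hc
    have e3 : (1 : ℝ) ≤ d := by exact_mod_cast hd
    have e4 : (1 : ℝ) ≤ x := by exact_mod_cast hx
    have e5 : (x : ℝ) ≤ b + c + d - 1 := by exact_mod_cast hy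
    by_cases k2 : 0 ≤ x - 1 - b
    · rw [st_of_nonneg k2]
      by_cases k3 : 0 ≤ x - 1 - c - d
      · rw [st_of_nonneg k3]; linarith
      · rw [st_of_neg (by omega)]; linarith
    · rw [st_of_neg (show x - 1 - b < 0 by omega)]
      by_cases k3 : 0 ≤ x - 1 - c - d
      · rw [st_of_nonneg k3]; linarith
      · rw [st_of_neg (by omega)]; linarith
  have hN' := mul_nonneg hN (sq_nonneg t)
  have hnu' := mul_nonneg hnu (sq_nonneg t)
  unfold RN
  rw [hqq, h0, h4, LL_eq hx hy]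
  push_cast at *
  linarith

theorem AA_nonpos {b c d x : ℤ} (hb : 1 ≤ b) (hc : 1 ≤ c) (hd : 1 ≤ d) (hx : 1 ≤ x)
    (hy : x ≤ b + c + d - 1) (p v2 v3 v4 t : ℝ) (h : LL b c d x p v2 v3 v4 t = 0) :
    AA b c d x p v2 v3 v4 t ≤ 0 := by
  rw [LL_eq hx hy] at h
  unfold AA
  obtain ⟨d0, hd0⟩ : ∃ z, z = p + ((x : ℝ) - 1) * t := ⟨_, rfl⟩
  obtain ⟨d2, hd2⟩ : ∃ z, z = p + v2 + ((x : ℝ) - 1 - b) * t := ⟨_, rfl⟩
  obtain ⟨d3, hd3⟩ : ∃ z, z = p + v3 + ((x : ℝ) - 1 - c) * t := ⟨_, rfl⟩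
  obtain ⟨d4, hd4⟩ : ∃ z, z = p + v4 + ((x : ℝ) - 1 - d) * t := ⟨_, rfl⟩
  have h23 : p + v2 + v3 + ((x : ℝ) - 1 - b - c) * t = d2 + d3 - d0 := by
    rw [hd0, hd2, hd3]; ring
  have h24 : p + v2 + v4 + ((x : ℝ) - 1 - b - d) * t = d2 + d4 - d0 := by
    rw [hd0, hd2, hd4]; ring
  have h34 : p + v3 + v4 + ((x : ℝ) - 1 - c - d) * t = d3 + d4 - d0 := by
    rw [hd0, hd3, hd4]; ring
  rw [h34, ← hd0, ← hd2] at h
  rw [h23, h24, h34, ← hd0, ← hd2, ← hd3, ← hd4]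
  have m23 : st (x - 1 - b - c) ≤ st (x - 1 - c) := st_mono (by omega)
  have m24 : st (x - 1 - b - d) ≤ st (x - 1 - d) := st_mono (by omega)
  have n3 := st_nonneg (x - 1 - c)
  have n4 := st_nonneg (x - 1 - d)
  by_cases k2 : 0 ≤ x - 1 - b
  · rw [st_of_nonneg k2] at h ⊢
    by_cases k3 : 0 ≤ x - 1 - c - d
    · rw [st_of_nonneg k3] at h ⊢
      rw [st_of_nonneg (show 0 ≤ x - 1 - c by omega), st_of_nonneg (show 0 ≤ x - 1 - d by omega)]
      have o23 := st_le_one (x - 1 - b - c)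
      have o24 := st_le_one (x - 1 - b - d)
      obtain rfl : d2 = 2 * d0 - d3 - d4 := by linarith
      nlinarith [mul_nonneg (sub_nonneg.mpr o23) (sq_nonneg (d0 - d4)),
        mul_nonneg (sub_nonneg.mpr o24) (sq_nonneg (d0 - d3))]
    · rw [st_of_neg (show x - 1 - c - d < 0 by omega)] at h ⊢
      obtain rfl : d2 = d0 := by linarith
      nlinarith [mul_nonneg (sub_nonneg.mpr m23) (sq_nonneg d3),
        mul_nonneg (sub_nonneg.mpr m24) (sq_nonneg d4)]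
  · rw [st_of_neg (show x - 1 - b < 0 by omega)] at h ⊢
    rw [st_of_neg (show x - 1 - b - c < 0 by omega), st_of_neg (show x - 1 - b - d < 0 by omega)]
    by_cases k3 : 0 ≤ x - 1 - c - d
    · rw [st_of_nonneg k3] at h ⊢
      rw [st_of_nonneg (show 0 ≤ x - 1 - c by omega), st_of_nonneg (show 0 ≤ x - 1 - d by omega)]
      obtain rfl : d4 = 2 * d0 - d3 := by linarith
      nlinarith [sq_nonneg (d0 - d3)]
    · rw [st_of_neg (show x - 1 - c - d < 0 by omega)] at h ⊢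
      obtain rfl : d0 = 0 := by linarith
      nlinarith [mul_nonneg n3 (sq_nonneg d3), mul_nonneg n4 (sq_nonneg d4)]

/-- (a) -/
theorem RN_nonpos {b c d x : ℤ} (hb : 1 ≤ b) (hc : 1 ≤ c) (hd : 1 ≤ d) (hx : 1 ≤ x)
    (hy : x ≤ b + c + d - 1) (p v2 v3 v4 t : ℝ) (h : LL b c d x p v2 v3 v4 t = 0) :
    RN b c d x p v2 v3 v4 t ≤ 0 := by
  have h1 := RN_le hb hc hd hx hy p v2 v3 v4 t
  have h2 := AA_nonpos hb hc hd hx hy p v2 v3 v4 t h
  rw [h] at h1
  linarith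

set_option maxRecDepth 20000 in
/-- (b) -/
theorem RN_b1 (c d x : ℤ) (p v2 v3 v4 t : ℝ) :
    RN 1 c d x p v2 v3 v4 (t + v2) = RN 1 c d x p 0 v3 v4 t
      + 2 * v2 * LL 1 c d x p 0 v3 v4 t - g2 c d (x - 2) * v2 ^ 2 := by
  have e : ∀ t, pp t = qq (t + 1) - qq t := fun t => (qq_sub t).symm
  unfold RN LL g2 W
  simp only [e]
  ring_nf

theorem LL_b1 (c d x : ℤ) (p v2 v3 v4 t : ℝ) :
    LL 1 c d x p v2 v3 v4 (t + v2) = LL 1 c d x p 0 v3 v4 t := by
  unfold LL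
  ring_nf

end Pool.Agent.Helper98.C2K3
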