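import Pool.Agent.Helper98.C2K3.Trunc2

/-!
PROJECT C2, kernel K_III+: truncated windows, assembly.
-/

namespace Pool.Agent.Helper98.C2K3

theorem pp_eq_p3 (t : ℤ) : pp t = p3 (t + 1) - 2 * p3 t + p3 (t - 1) := by
  have h1 := p3_sub t
  have h2 := p3_sub (t - 1)
  have h3 := qq_sub t
  rw [sub_add_cancel] at h2
  linarith

theorem qq_eq_p3 (t : ℤ) : qq t = p3 t - p3 (t - 1) := by
  have h2 := p3_sub (t - 1)
  rw [sub_add_cancel] at h2
  linarith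

theorem kk_k1 (b c d m : ℤ) : kk (1 - 2) b c d m = g2 (b - 1) (c + d) m - g3 b c d (m + 1) := by
  unfold kk g2 g3 g4
  simp only [qq_eq_p3]
  ring_nf

theorem g3_one (b d m : ℤ) : g3 b 1 d (m + 1) = g2 b d m := by
  unfold g2 g3
  simp only [qq_eq_p3, pp_eq_p3]
  ring_nf

theorem kk_k2 (c d m : ℤ) : kk 1 (1 - 2) c d m = - g2 c d m := by
  unfold kk g2 g4
  simp only [pp_eq_p3]
  ring_nf

theorem kk_k3 (b d m : ℤ) : kk 1 b (1 - 2) d m = g2 (b + 1) (d - 1) m - g2 b d m := by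
  unfold kk g2 g4
  simp only [pp_eq_p3]
  ring_nf

theorem pp_succ_sub (t : ℤ) : pp (t + 1) - pp t = st t := by
  by_cases h : 0 ≤ t
  · rw [st_of_nonneg h, pp_of_nonneg h, pp_of_nonneg (by omega)]; push_cast; ring
  · rw [st_of_neg (by omega), pp_of_nonpos (by omega), pp_of_nonpos (by omega)]; ring

theorem g2_shift (b d m : ℤ) : g2 (b - 1) (d + 1) m - g2 b d m = st (m - d) - st (m + 1 - b) := by
  rw [← pp_succ_sub, ← pp_succ_sub]
  unfold g2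
  ring_nf

/-- two strictly truncated indices 1 and 3 -/
theorem forced {b d x : ℤ} (h1 : kk (1 - 2) b 1 d (x - 2) < 0)
    (h3 : kk 1 b (1 - 2) d (x - 2) < 0) : b = x - 1 ∧ d = x - 1 := by
  rw [kk_k1, g3_one, add_comm 1 d, g2_shift] at h1
  rw [kk_k3] at h3
  have h4 := g2_shift d b (x - 2)
  rw [g2_swap (d - 1) (b + 1), g2_swap d b] at h3
  rw [h4] at h3
  have a1 : ¬ (0 ≤ x - 2 - d) := by
    intro h
    have := st_le_one (x - 2 + 1 - b)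
    rw [st_of_nonneg h] at h1
    linarith
  have a2 : 0 ≤ x - 2 + 1 - b := by
    by_contra h
    have := st_nonneg (x - 2 - d)
    rw [st_of_neg (show x - 2 + 1 - b < 0 by omega)] at h1
    linarith
  have a3 : ¬ (0 ≤ x - 2 - b) := by
    intro h
    have := st_le_one (x - 2 + 1 - d)
    rw [st_of_nonneg h] at h3
    linarith
  have a4 : 0 ≤ x - 2 + 1 - d := by
    by_contra h
    have := st_nonneg (x - 2 - b)
    rw [st_of_neg (show x - 2 + 1 - d < 0 by omega)] at h3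
    linarith
  omega

theorem LL_lin (b c d x : ℤ) (p v2 v3 v4 t : ℝ) :
    LL b c d x p v2 v3 v4 t = LL b c d x 1 0 0 0 0 * p + LL b c d x 0 1 0 0 0 * v2
      + LL b c d x 0 0 1 0 0 * v3 + LL b c d x 0 0 0 1 0 * v4 + LL b c d x 0 0 0 0 1 * t := by
  unfold LL
  ring

/-- the value of the form on the row hyperplane -/
theorem QP_row {b c d x : ℤ} (hn : kk (1 - 2) b c d (x - 2) < 0) (p v1 v2 v3 v4 w : ℝ)
    (h : LL b c d x p v2 v3 v4 (w - v1) = 0) :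
    QP 1 b c d x p v1 v2 v3 v4 w = RN b c d x p v2 v3 v4 (w - v1)
      + tr b (kk 1 (b - 2) c d (x - 2)) * v2 ^ 2 + tr c (kk 1 b (c - 2) d (x - 2)) * v3 ^ 2
      + tr d (kk 1 b c (d - 2) (x - 2)) * v4 ^ 2 := by
  have h1 := QN_one b c d x p v1 v2 v3 v4 (w - v1)
  rw [sub_add_cancel, h] at h1
  have h2 : tr 1 (kk (1 - 2) b c d (x - 2)) = - kk (1 - 2) b c d (x - 2) := by
    unfold tr
    rw [if_pos rfl, max_eq_right (by linarith)]
  unfold QP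
  rw [h1, h2]
  ring

/-- reduction to the hyperplane -/
theorem OPP_of_row {b c d x : ℤ} (hn : kk (1 - 2) b c d (x - 2) < 0)
    (H : ∀ p v2 v3 v4 t : ℝ, LL b c d x p v2 v3 v4 t = 0 → RN b c d x p v2 v3 v4 t
      + tr b (kk 1 (b - 2) c d (x - 2)) * v2 ^ 2 + tr c (kk 1 b (c - 2) d (x - 2)) * v3 ^ 2
      + tr d (kk 1 b c (d - 2) (x - 2)) * v4 ^ 2 ≤ 0) : OPP 1 b c d x := by
  refine ⟨LL b c d x 1 0 0 0 0, - LL b c d x 0 0 0 0 1, LL b c d x 0 1 0 0 0,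
    LL b c d x 0 0 1 0 0, LL b c d x 0 0 0 1 0, LL b c d x 0 0 0 0 1,
    fun p v1 v2 v3 v4 w _ _ _ _ hl => ?_⟩
  have h : LL b c d x p v2 v3 v4 (w - v1) = 0 := by
    rw [LL_lin]; linarith
  rw [QP_row hn p v1 v2 v3 v4 w h]
  exact H p v2 v3 v4 (w - v1) h

/-- (a), (b): only index 1 (and possibly 2) truncated -/
theorem row_ab {b c d x : ℤ} (hb : 1 ≤ b) (hc : 1 ≤ c) (hd : 1 ≤ d) (hx : 1 ≤ x)
    (hy : x ≤ b + c + d - 1) (p v2 v3 v4 t : ℝ) (h : LL b c d x p v2 v3 v4 t = 0) :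
    RN b c d x p v2 v3 v4 t + tr b (kk 1 (b - 2) c d (x - 2)) * v2 ^ 2 ≤ 0 := by
  by_cases h1 : b = 1
  · subst h1
    have e1 : tr 1 (kk 1 (1 - 2) c d (x - 2)) = g2 c d (x - 2) := by
      unfold tr
      rw [if_pos rfl, kk_k2, neg_neg, max_eq_right (g2_nonneg (by omega) (by omega) _)]
    have e2 := RN_b1 c d x p v2 v3 v4 (t - v2)
    have e3 := LL_b1 c d x p v2 v3 v4 (t - v2)
    rw [sub_add_cancel] at e2 e3
    rw [h] at e3
    have e4 := RN_nonpos (b := 1) (c := c) (d := d) (x := x) (le_refl _) hc hd hx hy p 0 v3 v4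
      (t - v2) e3.symm
    rw [e1, e2, ← e3]
    linarith
  · have e1 : tr b (kk 1 (b - 2) c d (x - 2)) = 0 := by unfold tr; rw [if_neg h1]
    rw [e1]
    have := RN_nonpos hb hc hd hx hy p v2 v3 v4 t h
    linarith

theorem RN_c {n : ℤ} (hn : 1 ≤ n) (p v2 v3 v4 t : ℝ) :
    RN n 1 n (n + 1) p v2 v3 v4 t = 2 * t * (p + (n : ℝ) * t / 2) - (p + v2) ^ 2
      - (p + v3 + v4) ^ 2 + ((p + (n : ℝ) * t) ^ 2 - ((n : ℝ) * (n + 1)) / 2 * t ^ 2)
      - (p + v2) ^ 2 - ((p + v3 + ((n : ℝ) - 1) * t) ^ 2 - ((n : ℝ) * (n - 1)) / 2 * t ^ 2)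
      - (p + v4) ^ 2 := by
  have r1 : W pp (n + 1) p t = 2 * t * (p + (((n + 1 : ℤ) : ℝ) - 1) * t / 2) :=
    W_pp_pos (by omega) _ _
  have r2 : W pp (n + 1 - 1 - n) (p + v2) t = (p + v2) ^ 2 := by
    rw [show n + 1 - 1 - n = 0 by ring]; exact W_pp_zero _ _
  have r3 : W pp (n + 1 - 1 - n) (p + v3 + v4) t = (p + v3 + v4) ^ 2 := by
    rw [show n + 1 - 1 - n = 0 by ring]; exact W_pp_zero _ _
  have r4 : W pp (n + 1 - 1 - n - 1 - n) (p + v2 + v3 + v4) t = 0 := W_pp_neg (by omega) _ _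
  unfold RN
  rw [r1, r2, r3, r4]
  simp only [W_qq]
  rw [st_of_nonneg (show 0 ≤ n + 1 - 1 by omega), st_of_nonneg (show 0 ≤ n + 1 - n - 1 by omega),
    st_of_nonneg (show 0 ≤ n + 1 - 1 - 1 by omega),
    st_of_neg (show n + 1 - n - 1 - 1 < 0 by omega),
    st_of_neg (show n + 1 - n - n - 1 < 0 by omega),
    st_of_neg (show n + 1 - 1 - n - 1 < 0 by omega),
    st_of_neg (show n + 1 - n - 1 - n - 1 < 0 by omega),
    qq_of_nonneg (show 0 ≤ n + 1 by omega), qq_of_nonneg (show 0 ≤ n + 1 - 1 by omega),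
    qq_of_nonneg (show 0 ≤ n + 1 - n by omega), qq_of_nonpos (show n + 1 - n - 1 ≤ 1 by omega),
    qq_of_nonpos (show n + 1 - n - n ≤ 1 by omega),
    qq_of_nonpos (show n + 1 - 1 - n ≤ 1 by omega),
    qq_of_nonpos (show n + 1 - n - 1 - n ≤ 1 by omega)]
  push_cast
  ring

theorem LL_c {n : ℤ} (hn : 1 ≤ n) (p v2 v3 v4 t : ℝ) :
    LL n 1 n (n + 1) p v2 v3 v4 t = (n : ℝ) * t - v2 := by
  rw [LL_eq (by omega) (by omega), st_of_nonneg (show 0 ≤ n + 1 - 1 - n by omega),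
    st_of_neg (show n + 1 - 1 - 1 - n < 0 by omega)]
  push_cast
  ring

theorem N3_c {n : ℤ} (hn : 1 ≤ n) : kk 1 n (1 - 2) n (n + 1 - 2) = -1 := by
  rw [kk_k3]
  unfold g2
  rw [pp_of_nonneg (show 0 ≤ n + 1 - 2 + 1 by omega),
    pp_of_nonpos (show n + 1 - 2 + 1 - (n + 1) ≤ 0 by omega),
    pp_of_nonneg (show 0 ≤ n + 1 - 2 + 1 - (n - 1) by omega),
    pp_of_nonpos (show n + 1 - 2 + 1 - (n + 1) - (n - 1) ≤ 0 by omega),
    pp_of_nonpos (show n + 1 - 2 + 1 - n ≤ 0 by omega),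
    pp_of_nonpos (show n + 1 - 2 + 1 - n - n ≤ 0 by omega)]
  push_cast
  ring

/-- (c) -/
theorem row_c {n : ℤ} (hn : 1 ≤ n) (p v2 v3 v4 t : ℝ)
    (h : LL n 1 n (n + 1) p v2 v3 v4 t = 0) :
    RN n 1 n (n + 1) p v2 v3 v4 t + tr n (kk 1 (n - 2) 1 n (n + 1 - 2)) * v2 ^ 2
      + tr 1 (kk 1 n (1 - 2) n (n + 1 - 2)) * v3 ^ 2
      + tr n (kk 1 n 1 (n - 2) (n + 1 - 2)) * v4 ^ 2 ≤ 0 := by
  have h3 : tr 1 (kk 1 n (1 - 2) n (n + 1 - 2)) = 1 := by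
    unfold tr; rw [if_pos rfl, N3_c hn]; norm_num
  rw [LL_c hn] at h
  obtain rfl : v2 = (n : ℝ) * t := by linarith
  rw [RN_c hn, h3]
  by_cases h1 : n = 1
  · subst h1
    have h2 : tr 1 (kk 1 (1 - 2) 1 1 (1 + 1 - 2)) = 1 := by
      unfold tr
      rw [if_pos rfl, kk_k2]
      unfold g2 pp
      norm_num
    have h4 : tr 1 (kk 1 1 1 (1 - 2) (1 + 1 - 2)) = 1 := by
      rw [kk_swap34, ← h3]
    rw [h2, h4]
    push_cast
    nlinarith [sq_nonneg (2 * p + (v3 + v4))]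
  · have h2 : tr n (kk 1 (n - 2) 1 n (n + 1 - 2)) = 0 := by unfold tr; rw [if_neg h1]
    have h4 : tr n (kk 1 n 1 (n - 2) (n + 1 - 2)) = 0 := by unfold tr; rw [if_neg h1]
    rw [h2, h4]
    have hn' : (1 : ℝ) ≤ n := by exact_mod_cast hn
    have e : 2 * t * (p + (n : ℝ) * t / 2) - (p + (n : ℝ) * t) ^ 2
      - (p + v3 + v4) ^ 2 + ((p + (n : ℝ) * t) ^ 2 - ((n : ℝ) * (n + 1)) / 2 * t ^ 2)
      - (p + (n : ℝ) * t) ^ 2 - ((p + v3 + ((n : ℝ) - 1) * t) ^ 2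
        - ((n : ℝ) * (n - 1)) / 2 * t ^ 2)
      - (p + v4) ^ 2 + 0 * ((n : ℝ) * t) ^ 2 + 1 * v3 ^ 2 + 0 * v4 ^ 2 =
      - ((2 * (p + (n : ℝ) * t - t) + v3) ^ 2 / 2 + (2 * (p + v4) + v3) ^ 2 / 2
        + (2 * (n : ℝ) - 1) * t ^ 2) := by ring
    rw [e]
    have : 0 ≤ (2 * (n : ℝ) - 1) * t ^ 2 := mul_nonneg (by linarith) (sq_nonneg t)
    nlinarith [sq_nonneg (2 * (p + (n : ℝ) * t - t) + v3), sq_nonneg (2 * (p + v4) + v3)]

/-- truncated windows, index 1 strictly truncated -/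
theorem trunc1 {b c d x : ℤ} (hb : 1 ≤ b) (hc : 1 ≤ c) (hd : 1 ≤ d) (hx : 1 ≤ x)
    (hy : x ≤ b + c + d - 1) (hn : kk (1 - 2) b c d (x - 2) < 0) : OPP 1 b c d x := by
  have key : ∀ {b c d x : ℤ}, 1 ≤ b → 1 ≤ c → 1 ≤ d → kk (1 - 2) b c d (x - 2) < 0 →
      c = 1 → kk 1 b (c - 2) d (x - 2) < 0 → OPP 1 b c d x := by
    intro b c d x hb hc hd hn h1 h2
    subst h1
    obtain ⟨e1, e2⟩ := forced hn h2
    obtain rfl : x = b + 1 := by omega
    obtain rfl : d = b := by omega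
    exact OPP_of_row hn fun p v2 v3 v4 t h => row_c hb p v2 v3 v4 t h
  by_cases h3 : c = 1 ∧ kk 1 b (c - 2) d (x - 2) < 0
  · exact key hb hc hd hn h3.1 h3.2
  by_cases h4 : d = 1 ∧ kk 1 b c (d - 2) (x - 2) < 0
  · apply OPP_swap34
    apply key hb hd hc _ h4.1
    · rw [kk_swap34]; exact h4.2
    · rw [kk_swap34]; exact hn
  have t3 : tr c (kk 1 b (c - 2) d (x - 2)) = 0 := by
    unfold tr
    split_ifs with h
    · exact max_eq_left (by have := fun h' => h3 ⟨h, h'⟩; linarith [not_lt.mp this])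
    · rfl
  have t4 : tr d (kk 1 b c (d - 2) (x - 2)) = 0 := by
    unfold tr
    split_ifs with h
    · exact max_eq_left (by have := fun h' => h4 ⟨h, h'⟩; linarith [not_lt.mp this])
    · rfl
  refine OPP_of_row hn fun p v2 v3 v4 t h => ?_
  rw [t3, t4]
  have := row_ab hb hc hd hx hy p v2 v3 v4 t h
  linarith

end Pool.Agent.Helper98.C2K3
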